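import Pool.Agent.Lib.MP_dba578_co.DBA.Even

/-!
# Board DBA, module Even4: groups of four even sets

* `four_even`: a group of four even sets in the layer `F`; an edge `e` is contained in `2 * u e` of them,
`u e ≤ 2`, and `u e = 1` on two disjoint bases `A`, `B` of `F`, which are used to correct the parities.
* `even_cover4`: the groups of all layers together.
-/

set_option autoImplicit false

namespace DBA

variable {E W : Type} [DecidableEq E] [AddCommGroup W] [Module (ZMod 2) W]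

theorem add_self_zmod (w : W) : w + w = 0 := by
  have h : (1 + 1 : ZMod 2) • w = 0 := by
    have : (1 + 1 : ZMod 2) = 0 := by decide
    rw [this, zero_smul]
  rwa [add_smul, one_smul] at h

/-- Correct the parity of `S` by a subset of `A`. -/
theorem exists_correct (d : E → W) (F A : Finset E)
    (hsA : ∀ e ∈ F, d e ∈ Submodule.span (ZMod 2) (d '' (A : Set E)))
    (S : Finset E) (hSF : S ⊆ F) (hS : Disjoint S A) :
    ∃ A' ⊆ A, ∑ e ∈ S ∪ A', d e = 0 := by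
  have h1 : ∑ e ∈ S, d e ∈ Submodule.span (ZMod 2) (d '' (A : Set E)) :=
    Submodule.sum_mem _ fun e he => hsA e (hSF he)
  obtain ⟨A', hA', h2⟩ := exists_subset_sum d A _ h1
  refine ⟨A', hA', ?_⟩
  rw [Finset.sum_union (hS.mono_right hA'), h2]
  exact add_self_zmod _

/-- One group of four even sets. -/
theorem four_even (d : E → W) (F A B : Finset E) (hAF : A ⊆ F) (hBF : B ⊆ F)
    (hAB : Disjoint A B)
    (hsA : ∀ e ∈ F, d e ∈ Submodule.span (ZMod 2) (d '' (A : Set E)))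
    (hsB : ∀ e ∈ F, d e ∈ Submodule.span (ZMod 2) (d '' (B : Set E)))
    (u : E → ℕ) (hu : ∀ e, u e ≤ 2) (hu0 : ∀ e, e ∉ F → u e = 0) (huA : ∀ e ∈ A, u e = 1)
    (huB : ∀ e ∈ B, u e = 1) :
    ∃ Z : Fin 4 → Finset E, (∀ j, ∑ e ∈ Z j, d e = 0) ∧
      ∀ e, (Finset.univ.filter fun j => e ∈ Z j).card = 2 * u e := by
  classical
  obtain ⟨D, hD⟩ : ∃ D : Finset E, D = F.filter fun e => u e = 2 := ⟨_, rfl⟩
  obtain ⟨R, hR⟩ : ∃ R : Finset E, R = F.filter fun e => u e = 1 ∧ e ∉ A ∧ e ∉ B :=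
    ⟨_, rfl⟩
  have hDF : D ⊆ F := by rw [hD]; exact Finset.filter_subset _ _
  have hRF : R ⊆ F := by rw [hR]; exact Finset.filter_subset _ _
  have hDm : ∀ e, e ∈ D ↔ u e = 2 := by
    intro e
    rw [hD, Finset.mem_filter]
    refine ⟨fun h => h.2, fun h => ⟨?_, h⟩⟩
    by_contra hne
    have := hu0 e hne
    omega
  have hRm : ∀ e, e ∈ R ↔ u e = 1 ∧ e ∉ A ∧ e ∉ B := by
    intro e
    rw [hR, Finset.mem_filter]
    refine ⟨fun h => h.2, fun h => ⟨?_, h⟩⟩
    by_contra hne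
    have := hu0 e hne
    omega
  have hDA : Disjoint D A := Finset.disjoint_left.2 fun e h1 h2 => by
    have := (hDm e).1 h1; have := huA e h2; omega
  have hDB : Disjoint D B := Finset.disjoint_left.2 fun e h1 h2 => by
    have := (hDm e).1 h1; have := huB e h2; omega
  have hRA : Disjoint R A := Finset.disjoint_left.2 fun e h1 h2 => ((hRm e).1 h1).2.1 h2
  have hRB : Disjoint R B := Finset.disjoint_left.2 fun e h1 h2 => ((hRm e).1 h1).2.2 h2
  have hDR : Disjoint D R := Finset.disjoint_left.2 fun e h1 h2 => by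
    have := (hDm e).1 h1; have := ((hRm e).1 h2).1; omega
  -- the first set
  obtain ⟨A₁, hA₁, hZ₁⟩ := exists_correct d F A hsA (D ∪ R ∪ B)
    (Finset.union_subset (Finset.union_subset hDF hRF) hBF)
    (Finset.disjoint_union_left.2 ⟨Finset.disjoint_union_left.2 ⟨hDA, hRA⟩, hAB.symm⟩)
  -- the second set
  obtain ⟨B₂, hB₂, hZ₂⟩ := exists_correct d F B hsB (D ∪ R ∪ (A \ A₁))
    (Finset.union_subset (Finset.union_subset hDF hRF) (Finset.sdiff_subset.trans hAF))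
    (Finset.disjoint_union_left.2 ⟨Finset.disjoint_union_left.2 ⟨hDB, hRB⟩,
      hAB.mono_left Finset.sdiff_subset⟩)
  -- the third set
  obtain ⟨A₃, hA₃, hZ₃⟩ := exists_correct d F A hsA (D ∪ (B \ B₂))
    (Finset.union_subset hDF (Finset.sdiff_subset.trans hBF))
    (Finset.disjoint_union_left.2 ⟨hDA, (hAB.mono_right Finset.sdiff_subset).symm⟩)
  have hZ₄ : ∑ e ∈ D ∪ (A \ A₃), d e = 0 := by
    have e1 : ∑ e ∈ D ∪ R ∪ B ∪ A₁, d e = ∑ e ∈ D, d e + ∑ e ∈ R, d e + ∑ e ∈ B, d e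
        + ∑ e ∈ A₁, d e := by
      rw [Finset.sum_union, Finset.sum_union, Finset.sum_union hDR]
      · exact Finset.disjoint_union_left.2 ⟨hDB, hRB⟩
      · exact (Finset.disjoint_union_left.2 ⟨Finset.disjoint_union_left.2 ⟨hDA, hRA⟩,
          hAB.symm⟩).mono_right hA₁
    have e2 : ∑ e ∈ D ∪ R ∪ (A \ A₁) ∪ B₂, d e = ∑ e ∈ D, d e + ∑ e ∈ R, d e
        + ∑ e ∈ A \ A₁, d e + ∑ e ∈ B₂, d e := by
      rw [Finset.sum_union, Finset.sum_union, Finset.sum_union hDR]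
      · exact (Finset.disjoint_union_left.2 ⟨hDA, hRA⟩).mono_right Finset.sdiff_subset
      · exact (Finset.disjoint_union_left.2 ⟨Finset.disjoint_union_left.2 ⟨hDB, hRB⟩,
          hAB.mono_left Finset.sdiff_subset⟩).mono_right hB₂
    have e3 : ∑ e ∈ D ∪ (B \ B₂) ∪ A₃, d e = ∑ e ∈ D, d e + ∑ e ∈ B \ B₂, d e
        + ∑ e ∈ A₃, d e := by
      rw [Finset.sum_union, Finset.sum_union]
      · exact hDB.mono_right Finset.sdiff_subset
      · exact (Finset.disjoint_union_left.2 ⟨hDA,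
          (hAB.mono_right Finset.sdiff_subset).symm⟩).mono_right hA₃
    have e4 : ∑ e ∈ D ∪ (A \ A₃), d e = ∑ e ∈ D, d e + ∑ e ∈ A \ A₃, d e :=
      Finset.sum_union (hDA.mono_right Finset.sdiff_subset)
    have f1 := Finset.sum_sdiff (f := d) hA₁
    have f2 := Finset.sum_sdiff (f := d) hB₂
    have f3 := Finset.sum_sdiff (f := d) hA₃
    rw [e1] at hZ₁
    rw [e2] at hZ₂
    rw [e3] at hZ₃
    rw [e4]
    have s1 := add_self_zmod (∑ e ∈ D, d e)
    have s2 := add_self_zmod (∑ e ∈ R, d e)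
    have s3 := add_self_zmod (∑ e ∈ A, d e)
    have s4 := add_self_zmod (∑ e ∈ B, d e)
    have key : ∑ e ∈ D, d e + ∑ e ∈ A \ A₃, d e =
        (∑ e ∈ D, d e + ∑ e ∈ R, d e + ∑ e ∈ B, d e + ∑ e ∈ A₁, d e)
        + (∑ e ∈ D, d e + ∑ e ∈ R, d e + ∑ e ∈ A \ A₁, d e + ∑ e ∈ B₂, d e)
        + (∑ e ∈ D, d e + ∑ e ∈ B \ B₂, d e + ∑ e ∈ A₃, d e)
        - (∑ e ∈ D, d e + ∑ e ∈ D, d e) - (∑ e ∈ R, d e + ∑ e ∈ R, d e)
        - (∑ e ∈ B, d e + ∑ e ∈ B, d e)
        - (∑ e ∈ A, d e + ∑ e ∈ A, d e) + (∑ e ∈ A \ A₃, d e + ∑ e ∈ A \ A₃, d e) := by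
      rw [← f1, ← f2]
      have f3' : ∑ e ∈ A \ A₃, d e = (∑ e ∈ A \ A₁, d e + ∑ e ∈ A₁, d e) - ∑ e ∈ A₃, d e := by
        rw [f1, ← f3]; abel
      rw [f3']
      abel
    rw [key, hZ₁, hZ₂, hZ₃, s1, s2, s4, s3, add_self_zmod (∑ e ∈ A \ A₃, d e)]
    simp
  refine ⟨![D ∪ R ∪ B ∪ A₁, D ∪ R ∪ (A \ A₁) ∪ B₂, D ∪ (B \ B₂) ∪ A₃, D ∪ (A \ A₃)], ?_, ?_⟩
  · intro j
    fin_cases j
    · exact hZ₁
    · exact hZ₂
    · exact hZ₃
    · exact hZ₄
  · intro e
    rw [Finset.card_filter, Fin.sum_univ_four]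
    simp only [Matrix.cons_val_zero, Matrix.cons_val_one, Matrix.cons_val_two, Matrix.cons_val_three,
      Matrix.cons_val, Finset.mem_union, Finset.mem_sdiff]
    have hDe := hDm e
    have hRe := hRm e
    have a1 : e ∈ A₁ → e ∈ A := fun h => hA₁ h
    have a3 : e ∈ A₃ → e ∈ A := fun h => hA₃ h
    have b2 : e ∈ B₂ → e ∈ B := fun h => hB₂ h
    have ab : e ∈ A → e ∉ B := fun h1 h2 => (Finset.disjoint_left.1 hAB) h1 h2
    have ua := huA e
    have ub := huB e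
    have u2 := hu e
    by_cases hDe' : e ∈ D
    · have hu2 := hDe.1 hDe'
      simp [hDe', hu2]
    · by_cases hRe' : e ∈ R
      · have hr := hRe.1 hRe'
        have n1 : e ∉ A₁ := fun h => hr.2.1 (a1 h)
        have n2 : e ∉ A₃ := fun h => hr.2.1 (a3 h)
        have n3 : e ∉ B₂ := fun h => hr.2.2 (b2 h)
        simp [hDe', hRe', hr, n1, n2, n3]
      · by_cases hAe : e ∈ A
        · have hBe := ab hAe
          have n3 : e ∉ B₂ := fun h => hBe (b2 h)
          have hue := ua hAe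
          by_cases h1 : e ∈ A₁ <;> by_cases h3 : e ∈ A₃ <;>
            simp [hDe', hRe', hAe, hBe, n3, hue, h1, h3]
        · have n1 : e ∉ A₁ := fun h => hAe (a1 h)
          have n2 : e ∉ A₃ := fun h => hAe (a3 h)
          by_cases hBe : e ∈ B
          · have hue := ub hBe
            by_cases h1 : e ∈ B₂ <;> simp [hDe', hRe', hAe, hBe, n1, n2, hue, h1]
          · have n3 : e ∉ B₂ := fun h => hBe (b2 h)
            have hue : u e = 0 := by
              have h1 : u e ≠ 1 := fun h => hRe' (hRe.2 ⟨h, hAe, hBe⟩)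
              have h2 : u e ≠ 2 := fun h => hDe' (hDe.2 h)
              omega
            simp [hDe', hRe', hAe, hBe, n1, n2, n3, hue]

/-- The distribution of `y` uses over the layers. -/
theorem exists_distribution {m : ℕ} (P Q : Finset (Fin m)) (hPQ : P ⊆ Q) (y : ℕ)
    (h1 : P.card ≤ y) (h2 : y + P.card ≤ 2 * Q.card) :
    ∃ u : Fin m → ℕ, (∀ i, u i ≤ 2) ∧ (∀ i, i ∉ Q → u i = 0) ∧ (∀ i ∈ P, u i = 1) ∧
      ∑ i, u i = y := by
  have h3 : (Q \ P).card = Q.card - P.card := Finset.card_sdiff_of_subset hPQ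
  obtain ⟨T₁, hT₁, hc₁⟩ := Finset.exists_subset_card_eq
    (s := Q \ P) (n := min (y - P.card) (Q \ P).card) (min_le_right _ _)
  obtain ⟨T₂, hT₂, hc₂⟩ := Finset.exists_subset_card_eq
    (s := Q \ P) (n := (y - P.card) - min (y - P.card) (Q \ P).card) (by omega)
  refine ⟨fun i => (if i ∈ P then 1 else 0) + (if i ∈ T₁ then 1 else 0) +
    (if i ∈ T₂ then 1 else 0), ?_, ?_, ?_, ?_⟩
  · intro i
    have k1 : i ∈ T₁ → i ∉ P := fun h => (Finset.mem_sdiff.1 (hT₁ h)).2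
    have k2 : i ∈ T₂ → i ∉ P := fun h => (Finset.mem_sdiff.1 (hT₂ h)).2
    by_cases hP : i ∈ P
    · have n1 : i ∉ T₁ := fun h => k1 h hP
      have n2 : i ∉ T₂ := fun h => k2 h hP
      simp [hP, n1, n2]
    · simp only [hP, if_false]
      split_ifs <;> omega
  · intro i hi
    have n0 : i ∉ P := fun h => hi (hPQ h)
    have n1 : i ∉ T₁ := fun h => hi (Finset.mem_sdiff.1 (hT₁ h)).1
    have n2 : i ∉ T₂ := fun h => hi (Finset.mem_sdiff.1 (hT₂ h)).1
    simp [n0, n1, n2]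
  · intro i hi
    have n1 : i ∉ T₁ := fun h => (Finset.mem_sdiff.1 (hT₁ h)).2 hi
    have n2 : i ∉ T₂ := fun h => (Finset.mem_sdiff.1 (hT₂ h)).2 hi
    simp [hi, n1, n2]
  · rw [Finset.sum_add_distrib, Finset.sum_add_distrib]
    simp only [Finset.sum_ite_mem, Finset.univ_inter, Finset.sum_const, smul_eq_mul, mul_one]
    omega

/-- The groups of all layers. -/
theorem even_cover4 [Fintype E] (d : E → W) {m : ℕ} (F A B : Fin m → Finset E) (y : E → ℕ)
    (hA : ∀ i, A i ⊆ F i) (hB : ∀ i, B i ⊆ F i) (hAB : ∀ i, Disjoint (A i) (B i))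
    (hsA : ∀ i, ∀ e ∈ F i, d e ∈ Submodule.span (ZMod 2) (d '' (A i : Set E)))
    (hsB : ∀ i, ∀ e ∈ F i, d e ∈ Submodule.span (ZMod 2) (d '' (B i : Set E)))
    (hle : ∀ e, (Finset.univ.filter (fun i : Fin m => e ∈ A i ∪ B i)).card ≤ y e)
    (hy : ∀ e, y e + (Finset.univ.filter (fun i : Fin m => e ∈ A i ∪ B i)).card ≤
      2 * (Finset.univ.filter (fun i : Fin m => e ∈ F i)).card) :
    ∃ C : Fin m × Fin 4 → Finset E, (∀ p, ∑ e ∈ C p, d e = 0) ∧
      ∀ e, (Finset.univ.filter (fun p => e ∈ C p)).card = 2 * y e := by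
  classical
  have h1 : ∀ e, ∃ u : Fin m → ℕ, (∀ i, u i ≤ 2) ∧ (∀ i, e ∉ F i → u i = 0) ∧
      (∀ i, e ∈ A i ∪ B i → u i = 1) ∧ ∑ i, u i = y e := by
    intro e
    obtain ⟨u, hu1, hu2, hu3, hu4⟩ := exists_distribution
      (Finset.univ.filter (fun i : Fin m => e ∈ A i ∪ B i))
      (Finset.univ.filter (fun i : Fin m => e ∈ F i)) (by
        intro i hi
        rw [Finset.mem_filter] at hi ⊢
        exact ⟨hi.1, (Finset.union_subset (hA i) (hB i)) hi.2⟩) (y e) (hle e) (hy e)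
    refine ⟨u, hu1, fun i hi => hu2 i (by simpa using hi), fun i hi => hu3 i (by simpa using hi),
      hu4⟩
  choose u hu1 hu2 hu3 hu4 using h1
  have h2 : ∀ i : Fin m, ∃ Z : Fin 4 → Finset E, (∀ j, ∑ e ∈ Z j, d e = 0) ∧
      ∀ e, (Finset.univ.filter fun j => e ∈ Z j).card = 2 * u e i := fun i =>
    four_even d (F i) (A i) (B i) (hA i) (hB i) (hAB i) (hsA i) (hsB i) (fun e => u e i)
      (fun e => hu1 e i) (fun e he => hu2 e i he)
      (fun e he => hu3 e i (Finset.mem_union_left _ he))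
      (fun e he => hu3 e i (Finset.mem_union_right _ he))
  choose Z hZ1 hZ2 using h2
  refine ⟨fun p => Z p.1 p.2, fun p => hZ1 p.1 p.2, fun e => ?_⟩
  have h3 : (Finset.univ.filter (fun p : Fin m × Fin 4 => e ∈ Z p.1 p.2)).card =
      ∑ i : Fin m, (Finset.univ.filter fun j => e ∈ Z i j).card := by
    rw [Finset.card_filter, Fintype.sum_prod_type]
    refine Finset.sum_congr rfl fun i _ => ?_
    rw [Finset.card_filter]
  rw [h3, Finset.sum_congr rfl fun i _ => hZ2 i e, ← Finset.mul_sum, hu4]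

end DBA
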