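import Pool.Agent.Lib.MP_dba578_co.DBA.Lin
import Pool.Agent.Lib.MP_dba578_co.DBA.Even4

/-!
# Board DBA, module Cut4: the partition condition gives the hypothesis of `level_ineq4`

The partition of `V` belonging to a set `Z` of edges: `u ~ v` iff `single u 1 + single v 1` is in the span
of `gd '' Z`.  `rk (E(K) ∪ Z) ≤ rk Z + #f(K) - 1`.
-/

set_option autoImplicit false

namespace DBA

variable {V E : Type} [Fintype V] [DecidableEq V] [DecidableEq E] [Fintype E]

/-- The partition belonging to a subspace. -/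
theorem exists_partition4 (U : Submodule (ZMod 2) (V → ZMod 2)) :
    ∃ f : V → V, (∀ u v, f u = f v ↔ (Pi.single u 1 + Pi.single v 1 : V → ZMod 2) ∈ U) ∧
      ∀ v, f (f v) = f v := by
  classical
  obtain ⟨s, hs⟩ : ∃ s : Setoid V, ∀ u v, s.r u v ↔
      (Pi.single u 1 + Pi.single v 1 : V → ZMod 2) ∈ U := by
    refine ⟨⟨fun u v => (Pi.single u 1 + Pi.single v 1 : V → ZMod 2) ∈ U, ⟨?_, ?_, ?_⟩⟩,
      fun u v => Iff.rfl⟩
    · intro u
      rw [add_self_zmod]
      exact U.zero_mem
    · intro u v h
      rw [add_comm]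
      exact h
    · intro u v w h1 h2
      have h3 := U.add_mem h1 h2
      have h4 : (Pi.single u 1 + Pi.single v 1 : V → ZMod 2) + (Pi.single v 1 + Pi.single w 1) =
          Pi.single u 1 + Pi.single w 1 := by
        have h5 := add_self_zmod (Pi.single v 1 : V → ZMod 2)
        calc (Pi.single u 1 + Pi.single v 1 : V → ZMod 2) + (Pi.single v 1 + Pi.single w 1)
            = Pi.single u 1 + Pi.single w 1 + (Pi.single v 1 + Pi.single v 1) := by abel
          _ = _ := by rw [h5, add_zero]
      rw [h4] at h3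
      exact h3
  refine ⟨fun v => (Quotient.mk s v).out, fun u v => ?_, fun v => ?_⟩
  · rw [← hs]
    constructor
    · intro h
      have h1 := congrArg (Quotient.mk s) h
      simp only [Quotient.out_eq] at h1
      exact Quotient.exact h1
    · intro h
      have h1 : Quotient.mk s u = Quotient.mk s v := Quotient.sound h
      show (Quotient.mk s u).out = (Quotient.mk s v).out
      rw [h1]
  · show (Quotient.mk s (Quotient.mk s v).out).out = (Quotient.mk s v).out
    rw [Quotient.out_eq]

/-- The rank increase caused by the edges inside `K`. -/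
theorem rk_union_le (a b : E → V) (K : Finset V) (hK : K.Nonempty) (Z F : Finset E)
    (hF : ∀ g ∈ F, a g ∈ K ∧ b g ∈ K) (f : V → V)
    (hf : ∀ u v, f u = f v ↔ (Pi.single u 1 + Pi.single v 1 : V → ZMod 2) ∈
      Submodule.span (ZMod 2) (gd a b '' (Z : Set E)))
    (hff : ∀ v, f (f v) = f v) :
    rk (gd a b) (F ∪ Z) ≤ rk (gd a b) Z + ((K.image f).card - 1) := by
  classical
  obtain ⟨u0, hu0⟩ := hK
  obtain ⟨U1, hU1⟩ : ∃ U1, U1 = Submodule.span (ZMod 2) (gd a b '' (Z : Set E)) := ⟨_, rfl⟩
  obtain ⟨T, hT⟩ : ∃ T : Finset (V → ZMod 2), T = ((K.image f).erase (f u0)).image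
      (fun c => (Pi.single c 1 + Pi.single (f u0) 1 : V → ZMod 2)) := ⟨_, rfl⟩
  have hTc : T.card ≤ (K.image f).card - 1 := by
    rw [hT]
    refine Finset.card_image_le.trans ?_
    rw [Finset.card_erase_of_mem (Finset.mem_image_of_mem f hu0)]
  have hle : Submodule.span (ZMod 2) (gd a b '' ((F ∪ Z : Finset E) : Set E)) ≤
      U1 ⊔ Submodule.span (ZMod 2) (T : Set (V → ZMod 2)) := by
    rw [Submodule.span_le]
    rintro _ ⟨g, hg, rfl⟩
    rw [Finset.coe_union, Set.mem_union] at hg
    rcases hg with hg | hg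
    · have hgF : g ∈ F := by exact_mod_cast hg
      have key : ∀ v ∈ K, (Pi.single v 1 + Pi.single (f u0) 1 : V → ZMod 2) ∈
          U1 ⊔ Submodule.span (ZMod 2) (T : Set (V → ZMod 2)) := by
        intro v hv
        have h1 : (Pi.single v 1 + Pi.single (f v) 1 : V → ZMod 2) ∈ U1 := by
          rw [hU1]
          exact (hf v (f v)).1 (hff v).symm
        have h2 : (Pi.single (f v) 1 + Pi.single (f u0) 1 : V → ZMod 2) ∈
            Submodule.span (ZMod 2) (T : Set (V → ZMod 2)) := by
          by_cases h : f v = f u0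
          · rw [h, add_self_zmod]
            exact Submodule.zero_mem _
          · apply Submodule.subset_span
            rw [Finset.mem_coe, hT, Finset.mem_image]
            exact ⟨f v, Finset.mem_erase.2 ⟨h, Finset.mem_image_of_mem f hv⟩, rfl⟩
        have h3 := Submodule.add_mem_sup h1 h2
        have h4 : (Pi.single v 1 + Pi.single (f v) 1 : V → ZMod 2) +
            (Pi.single (f v) 1 + Pi.single (f u0) 1) = Pi.single v 1 + Pi.single (f u0) 1 := by
          have h5 := add_self_zmod (Pi.single (f v) 1 : V → ZMod 2)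
          calc (Pi.single v 1 + Pi.single (f v) 1 : V → ZMod 2) +
              (Pi.single (f v) 1 + Pi.single (f u0) 1)
              = Pi.single v 1 + Pi.single (f u0) 1 + (Pi.single (f v) 1 + Pi.single (f v) 1) := by
                abel
            _ = _ := by rw [h5, add_zero]
        rw [h4] at h3
        exact h3
      have h1 := Submodule.add_mem _ (key (a g) (hF g hgF).1) (key (b g) (hF g hgF).2)
      have h2 : (Pi.single (a g) 1 + Pi.single (f u0) 1 : V → ZMod 2) +
          (Pi.single (b g) 1 + Pi.single (f u0) 1) = gd a b g := by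
        have h5 := add_self_zmod (Pi.single (f u0) 1 : V → ZMod 2)
        unfold gd
        calc (Pi.single (a g) 1 + Pi.single (f u0) 1 : V → ZMod 2) +
            (Pi.single (b g) 1 + Pi.single (f u0) 1)
            = Pi.single (a g) 1 + Pi.single (b g) 1 +
              (Pi.single (f u0) 1 + Pi.single (f u0) 1) := by abel
          _ = _ := by rw [h5, add_zero]
      rw [h2] at h1
      exact h1
    · apply Submodule.mem_sup_left
      rw [hU1]
      exact Submodule.subset_span ⟨g, hg, rfl⟩
  unfold rk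
  refine (Submodule.finrank_mono hle).trans ?_
  refine (Submodule.finrank_add_le_finrank_add_finrank _ _).trans ?_
  rw [hU1]
  refine Nat.add_le_add_left ?_ _
  exact (finrank_span_finset_le_card T).trans hTc

/-- The hypothesis of `level_ineq4` from the partition condition. -/
theorem hyp_of_partition (a b : E → V) (x y : E → ℕ) (hxy : ∀ e, x e = 2 * y e) (m : ℕ)
    (K : Finset V) (hK : K.Nonempty) (Z : Finset E)
    (h : ∀ f : V → V, (∀ g ∈ Z, f (a g) = f (b g)) → 4 * m * ((K.image f).card - 1) ≤
      ∑ g ∈ Finset.univ.filter (fun g : E => a g ∈ K ∧ b g ∈ K ∧ f (a g) ≠ f (b g)),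
        min (x g) (4 * m - x g)) :
    2 * m * rk (gd a b) (Finset.univ.filter (fun g : E => a g ∈ K ∧ b g ∈ K) ∪ Z) ≤
      2 * m * rk (gd a b) Z +
      ∑ g ∈ out (rk (gd a b)) (Finset.univ.filter (fun g : E => a g ∈ K ∧ b g ∈ K)) Z,
        min (y g) (2 * m - y g) := by
  classical
  obtain ⟨f, hf, hff⟩ := exists_partition4 (Submodule.span (ZMod 2) (gd a b '' (Z : Set E)))
  have h1 := h f (fun g hg => (hf _ _).2 (Submodule.subset_span ⟨g, by exact_mod_cast hg, rfl⟩))
  have h2 := rk_union_le a b K hK Z (Finset.univ.filter (fun g : E => a g ∈ K ∧ b g ∈ K))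
    (fun g hg => (Finset.mem_filter.1 hg).2) f hf hff
  have h3 : ∑ g ∈ Finset.univ.filter (fun g : E => a g ∈ K ∧ b g ∈ K ∧ f (a g) ≠ f (b g)),
      min (x g) (4 * m - x g) ≤
      2 * ∑ g ∈ out (rk (gd a b)) (Finset.univ.filter (fun g : E => a g ∈ K ∧ b g ∈ K)) Z,
        min (y g) (2 * m - y g) := by
    rw [Finset.mul_sum]
    have h4 : ∀ g, min (x g) (4 * m - x g) = 2 * min (y g) (2 * m - y g) := by
      intro g
      rw [hxy g]
      omega
    rw [Finset.sum_congr rfl fun g _ => h4 g]
    refine Finset.sum_le_sum_of_subset ?_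
    intro g hg
    rw [Finset.mem_filter] at hg
    unfold out
    rw [Finset.mem_filter, Finset.mem_filter]
    refine ⟨⟨hg.1, hg.2.1, hg.2.2.1⟩, fun h5 => hg.2.2.2 ?_⟩
    rw [rk_insert_eq_iff] at h5
    exact (hf _ _).2 h5
  have h5 : 2 * m * rk (gd a b) (Finset.univ.filter (fun g : E => a g ∈ K ∧ b g ∈ K) ∪ Z) ≤
      2 * m * (rk (gd a b) Z + ((K.image f).card - 1)) := Nat.mul_le_mul_left _ h2
  have h6 : 4 * m * ((K.image f).card - 1) = 2 * (2 * m * ((K.image f).card - 1)) := by ring
  rw [mul_add] at h5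
  omega

end DBA
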