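import Pool.Agent.Lib.MP_dba578_co.DBA.Defs

/-!
# Board DBA, module CutTree: cut condition implies partition condition

`CutDense x (2 k) K → TreeDense x k K`.  Let `f : V → V`, `c = #f(K)`.  If `c ≤ 1` trivial.  Otherwise for every
`w ∈ f(K)` the class `X_w = {v ∈ K | f v = w}` is nonempty and `≠ K`, so
`2 k ≤ ∑_{g crosses (X_w, K \ X_w)} x g`.  Sum over `w`: `2 k c ≤ ∑_w ∑_{g crosses X_w} x g`, and every `g` is
counted only if `a g, b g ∈ K`, `f (a g) ≠ f (b g)`, and then exactly twice (for `w = f (a g)` and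
`w = f (b g)`): `= 2 ∑ x g`.  So `k (c - 1) ≤ k c ≤ ∑ x g`.
-/

set_option autoImplicit false

namespace DBA

variable {V E : Type} [DecidableEq V] [Fintype E]

/-- MODULE CutTree. -/
theorem treeDense_of_cutDense (a b : E → V) (x : E → ℕ) (k : ℕ) (K : Finset V)
    (h : CutDense a b x (2 * k) K) : TreeDense a b x k K := by
  classical
  intro f
  rcases Nat.lt_or_ge (K.image f).card 2 with hc | hc
  · have : (K.image f).card - 1 = 0 := by omega
    rw [this, Nat.mul_zero]
    exact Nat.zero_le _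
  -- the classes
  set X : V → Finset V := fun w => K.filter (fun v => f v = w) with hX
  set F : Finset E := Finset.univ.filter (fun g : E => a g ∈ K ∧ b g ∈ K ∧ f (a g) ≠ f (b g))
    with hF
  have hcut : ∀ w ∈ K.image f, 2 * k ≤ ∑ g ∈ Finset.univ.filter
      (fun g : E => (a g ∈ X w ∧ b g ∈ K \ X w) ∨ (b g ∈ X w ∧ a g ∈ K \ X w)), x g := by
    intro w hw
    apply h
    · exact Finset.filter_subset _ _
    · obtain ⟨v, hv, hfv⟩ := Finset.mem_image.1 hw
      exact ⟨v, Finset.mem_filter.2 ⟨hv, hfv⟩⟩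
    · intro hXK
      have h1 : K.image f ⊆ {w} := by
        intro w' hw'
        obtain ⟨v, hv, rfl⟩ := Finset.mem_image.1 hw'
        rw [← hXK] at hv
        rw [Finset.mem_singleton]
        exact (Finset.mem_filter.1 hv).2
      have h2 := Finset.card_le_card h1
      rw [Finset.card_singleton] at h2
      omega
  have hsum := Finset.sum_le_sum hcut
  rw [Finset.sum_const, smul_eq_mul] at hsum
  -- exchange the sums
  have hswap : ∑ w ∈ K.image f, ∑ g ∈ Finset.univ.filter
      (fun g : E => (a g ∈ X w ∧ b g ∈ K \ X w) ∨ (b g ∈ X w ∧ a g ∈ K \ X w)), x g ≤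
      ∑ g ∈ F, 2 * x g := by
    have h1 : ∀ w ∈ K.image f, ∑ g ∈ Finset.univ.filter
        (fun g : E => (a g ∈ X w ∧ b g ∈ K \ X w) ∨ (b g ∈ X w ∧ a g ∈ K \ X w)), x g ≤
        ∑ g ∈ F, ((if f (a g) = w then x g else 0) + (if f (b g) = w then x g else 0)) := by
      intro w _
      have h2 : Finset.univ.filter
          (fun g : E => (a g ∈ X w ∧ b g ∈ K \ X w) ∨ (b g ∈ X w ∧ a g ∈ K \ X w)) ⊆ F := by
        intro g hg
        rw [Finset.mem_filter] at hg
        rw [hF, Finset.mem_filter]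
        refine ⟨Finset.mem_univ _, ?_⟩
        simp only [hX, Finset.mem_filter, Finset.mem_sdiff] at hg
        rcases hg.2 with ⟨⟨c1, c2⟩, c3, c4⟩ | ⟨⟨c1, c2⟩, c3, c4⟩
        · exact ⟨c1, c3, fun h => c4 ⟨c3, by rw [← h, c2]⟩⟩
        · exact ⟨c3, c1, fun h => c4 ⟨c3, by rw [h, c2]⟩⟩
      refine le_trans (Finset.sum_le_sum (f := fun g => x g)
        (g := fun g => (if f (a g) = w then x g else 0) + (if f (b g) = w then x g else 0)) ?_)
        (Finset.sum_le_sum_of_subset h2)
      intro g hg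
      rw [Finset.mem_filter] at hg
      simp only [hX, Finset.mem_filter, Finset.mem_sdiff] at hg
      rcases hg.2 with ⟨⟨c1, c2⟩, -⟩ | ⟨⟨c1, c2⟩, -⟩
      · rw [if_pos c2]; omega
      · rw [if_pos c2]; omega
    refine (Finset.sum_le_sum h1).trans ?_
    rw [Finset.sum_comm]
    refine Finset.sum_le_sum fun g _ => ?_
    rw [Finset.sum_add_distrib, Finset.sum_ite_eq, Finset.sum_ite_eq]
    split_ifs <;> omega
  rw [← Finset.mul_sum] at hswap
  have h3 := hsum.trans hswap
  have h4 : (K.image f).card * (2 * k) = 2 * (k * (K.image f).card) := by ring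
  have h5 : k * ((K.image f).card - 1) ≤ k * (K.image f).card :=
    Nat.mul_le_mul_left _ (Nat.sub_le _ _)
  omega

end DBA
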