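import Pool.Agent.Lib.MP_dba578_co.DBA.Lin

/-!
# Board DBA, module Cyc: a minimal nonempty even set of edges is a cycle

`(∑_{e ∈ C} gd a b e) v = deg a b C v` in `ZMod 2`; so `∑_{e ∈ C} gd a b e = 0` iff all degrees are even.
Let `C` be minimal nonempty even.
* Connected: if `D ⊆ C`, `D ≠ ∅`, `D ≠ C` and no `v` has `deg D v ≠ 0` and `deg (C \ D) v ≠ 0`, then
`deg D v ∈ {0, deg C v}` for all `v` (`deg C v = deg D v + deg (C \ D) v`), so `D` is even: contradiction to
minimality.
* Degrees: let `V' = {v | deg C v ≠ 0}`, `v0 ∈ V'`, `e0 ∈ C`.  The map which sends `D ⊆ C \ {e0}` to the set of the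
vertices of `V' \ {v0}` of odd degree in `D` is injective, so `#C - 1 ≤ #V' - 1`.  Handshake: `∑_v deg C v = 2 #C`
and `deg C v ≥ 2` for `v ∈ V'` (even, nonzero): `2 #V' ≤ 2 #C ≤ 2 #V'`, so all these degrees are 2.
-/

set_option autoImplicit false

namespace DBA

variable {V E : Type} [Fintype V] [DecidableEq V] [DecidableEq E]

/-- MODULE Cyc (a). -/
theorem sum_gd_apply (a b : E → V) (C : Finset E) (v : V) :
    (∑ e ∈ C, gd a b e) v = (deg a b C v : ZMod 2) := by
  rw [Finset.sum_apply]
  unfold gd deg
  simp only [Pi.add_apply, Pi.single_apply]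
  rw [Finset.sum_add_distrib]
  push_cast
  rw [Finset.card_filter, Finset.card_filter]
  push_cast
  congr 1
  · exact Finset.sum_congr rfl fun e _ => by simp only [eq_comm]
  · exact Finset.sum_congr rfl fun e _ => by simp only [eq_comm]

omit [Fintype V] [DecidableEq E] in
private theorem deg_mono (a b : E → V) {D C : Finset E} (h : D ⊆ C) (v : V) :
    deg a b D v ≤ deg a b C v := by
  unfold deg
  exact Nat.add_le_add (Finset.card_le_card (Finset.filter_subset_filter _ h))
    (Finset.card_le_card (Finset.filter_subset_filter _ h))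

omit [Fintype V] in
private theorem deg_sdiff (a b : E → V) {D C : Finset E} (h : D ⊆ C) (v : V) :
    deg a b C v = deg a b D v + deg a b (C \ D) v := by
  have key : ∀ p : E → Prop, ∀ [DecidablePred p],
      (C.filter p).card = (D.filter p).card + ((C \ D).filter p).card := by
    intro p _
    rw [← Finset.card_union_of_disjoint]
    · rw [← Finset.filter_union, Finset.union_sdiff_of_subset h]
    · exact Finset.disjoint_filter_filter Finset.disjoint_sdiff
  unfold deg
  rw [key, key]
  omega

omit [DecidableEq E] in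
private theorem handshake (a b : E → V) (C : Finset E) :
    ∑ v, deg a b C v = 2 * C.card := by
  unfold deg
  rw [Finset.sum_add_distrib]
  have h1 : C.card = ∑ v, (C.filter (fun e => a e = v)).card :=
    Finset.card_eq_sum_card_fiberwise fun _ _ => Finset.mem_coe.2 (Finset.mem_univ _)
  have h2 : C.card = ∑ v, (C.filter (fun e => b e = v)).card :=
    Finset.card_eq_sum_card_fiberwise fun _ _ => Finset.mem_coe.2 (Finset.mem_univ _)
  omega

private theorem total_zero (a b : E → V) (D : Finset E) :
    ∑ v, (∑ e ∈ D, gd a b e) v = 0 := by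
  simp_rw [sum_gd_apply]
  rw [← Nat.cast_sum, handshake]
  push_cast
  rw [show (2 : ZMod 2) = 0 from rfl, zero_mul]

private theorem zmod2_eq {x y : ZMod 2} (h : x ≠ 0 ↔ y ≠ 0) : x = y := by
  revert x y
  decide

/-- MODULE Cyc (b). -/
theorem card_le_of_minEven (a b : E → V) (C : Finset E) (hC : MinEven (gd a b) C) :
    C.card ≤ (Finset.univ.filter (fun v => deg a b C v ≠ 0)).card := by
  obtain ⟨hne, _, hmin⟩ := hC
  obtain ⟨e0, he0⟩ := hne
  set V' := Finset.univ.filter (fun v => deg a b C v ≠ 0) with hV'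
  have hv0 : a e0 ∈ V' := by
    rw [hV', Finset.mem_filter]
    refine ⟨Finset.mem_univ _, ?_⟩
    have : 0 < (C.filter (fun e => a e = a e0)).card :=
      Finset.card_pos.2 ⟨e0, Finset.mem_filter.2 ⟨he0, rfl⟩⟩
    unfold deg
    omega
  have hinj : Set.InjOn (fun D : Finset E => (V'.erase (a e0)).filter
      (fun v => (∑ e ∈ D, gd a b e) v ≠ 0)) ((C.erase e0).powerset : Set (Finset E)) := by
    intro D hD D' hD' heq
    rw [Finset.mem_coe, Finset.mem_powerset] at hD hD'
    have hout : ∀ F : Finset E, F ⊆ C.erase e0 → ∀ v, v ∉ V' → (∑ e ∈ F, gd a b e) v = 0 := by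
      intro F hF v hv
      rw [sum_gd_apply]
      have h1 : deg a b C v = 0 := by
        by_contra h
        exact hv (Finset.mem_filter.2 ⟨Finset.mem_univ _, h⟩)
      have h2 := deg_mono a b (hF.trans (Finset.erase_subset _ _)) v
      have h3 : deg a b F v = 0 := by omega
      rw [h3, Nat.cast_zero]
    have hne0 : ∀ v, v ≠ a e0 → (∑ e ∈ D, gd a b e) v = (∑ e ∈ D', gd a b e) v := by
      intro v hv
      by_cases hvV : v ∈ V'
      · have hm : v ∈ V'.erase (a e0) := Finset.mem_erase.2 ⟨hv, hvV⟩
        have h1 : v ∈ (V'.erase (a e0)).filter (fun v => (∑ e ∈ D, gd a b e) v ≠ 0) ↔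
            v ∈ (V'.erase (a e0)).filter (fun v => (∑ e ∈ D', gd a b e) v ≠ 0) := by
          have := congrArg (fun s => v ∈ s) heq
          exact iff_of_eq this
        rw [Finset.mem_filter, Finset.mem_filter] at h1
        apply zmod2_eq
        constructor
        · intro h
          exact (h1.1 ⟨hm, h⟩).2
        · intro h
          exact (h1.2 ⟨hm, h⟩).2
      · rw [hout D hD v hvV, hout D' hD' v hvV]
    have hall : ∑ e ∈ D, gd a b e = ∑ e ∈ D', gd a b e := by
      funext v
      by_cases hv : v = a e0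
      · have h1 := total_zero a b D
        have h2 := total_zero a b D'
        rw [← Finset.add_sum_erase _ _ (Finset.mem_univ (a e0))] at h1 h2
        have h3 : ∑ x ∈ Finset.univ.erase (a e0), (∑ e ∈ D, gd a b e) x =
            ∑ x ∈ Finset.univ.erase (a e0), (∑ e ∈ D', gd a b e) x :=
          Finset.sum_congr rfl fun x hx => hne0 x (Finset.ne_of_mem_erase hx)
        rw [h3] at h1
        rw [hv]
        exact add_right_cancel (h1.trans h2.symm)
      · exact hne0 v hv
    have hsym : ∑ e ∈ symmDiff D D', gd a b e = 0 := by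
      have h1 : ∑ e ∈ symmDiff D D', gd a b e =
          ∑ e ∈ D \ D', gd a b e + ∑ e ∈ D' \ D, gd a b e := by
        rw [symmDiff_def, Finset.sup_eq_union]
        exact Finset.sum_union (Finset.disjoint_left.2 fun x hx hx' =>
          (Finset.mem_sdiff.1 hx').2 (Finset.mem_sdiff.1 hx).1)
      have h2 : ∑ e ∈ D, gd a b e = ∑ e ∈ D \ D', gd a b e + ∑ e ∈ D ∩ D', gd a b e := by
        rw [← Finset.sum_sdiff (Finset.inter_subset_left : D ∩ D' ⊆ D), Finset.sdiff_inter_self_left]
      have h3 : ∑ e ∈ D', gd a b e = ∑ e ∈ D' \ D, gd a b e + ∑ e ∈ D ∩ D', gd a b e := by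
        rw [← Finset.sum_sdiff (Finset.inter_subset_right : D ∩ D' ⊆ D'), Finset.sdiff_inter_self_right]
      rw [h2, h3] at hall
      have h4 := add_right_cancel hall
      rw [h1, h4]
      funext v
      rw [Pi.add_apply, Pi.zero_apply]
      generalize (∑ e ∈ D' \ D, gd a b e) v = x
      revert x
      decide
    by_contra hDD
    have hne' : (symmDiff D D').Nonempty := by
      rw [Finset.nonempty_iff_ne_empty]
      intro h
      exact hDD (symmDiff_eq_bot.1 h)
    have hsub : symmDiff D D' ⊆ C.erase e0 := by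
      intro x hx
      rw [Finset.mem_symmDiff] at hx
      rcases hx with hx | hx
      · exact hD hx.1
      · exact hD' hx.1
    have h5 := hmin _ (hsub.trans (Finset.erase_subset _ _)) hne' hsym
    have h6 : e0 ∈ C.erase e0 := hsub (h5 ▸ he0)
    exact Finset.notMem_erase _ _ h6
  have hcard := Finset.card_le_card_of_injOn (t := (V'.erase (a e0)).powerset) _
    (fun D _ => Finset.mem_coe.2 (Finset.mem_powerset.2 (Finset.filter_subset _ _))) hinj
  rw [Finset.card_powerset, Finset.card_powerset,
    Nat.pow_le_pow_iff_right (by norm_num : 1 < 2), Finset.card_erase_of_mem he0,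
    Finset.card_erase_of_mem hv0] at hcard
  have h7 := Finset.card_pos.2 ⟨_, hv0⟩
  omega

/-- MODULE Cyc (c). -/
theorem isCycle_of_minEven (a b : E → V) (C : Finset E) (hC : MinEven (gd a b) C) :
    IsCycle a b C := by
  have hb := card_le_of_minEven a b C hC
  obtain ⟨hne, hsum, hmin⟩ := hC
  have heven : ∀ v, (deg a b C v : ZMod 2) = 0 := by
    intro v
    rw [← sum_gd_apply, hsum, Pi.zero_apply]
  have hev : ∀ v, deg a b C v ≠ 0 → 2 ≤ deg a b C v := by
    intro v hv
    have h1 := (ZMod.natCast_eq_zero_iff _ _).1 (heven v)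
    omega
  refine ⟨hne, ?_, ?_⟩
  · set V' := Finset.univ.filter (fun v => deg a b C v ≠ 0) with hV'
    have h1 : ∑ v ∈ V', deg a b C v = 2 * C.card := by
      rw [← handshake a b C, hV']
      exact Finset.sum_filter_ne_zero _
    have h2 : ∑ v ∈ V', 2 = ∑ v ∈ V', deg a b C v := by
      apply le_antisymm
      · exact Finset.sum_le_sum fun v hv => hev v (Finset.mem_filter.1 hv).2
      · rw [h1, Finset.sum_const, smul_eq_mul]
        omega
    have h3 := (Finset.sum_eq_sum_iff_of_le
      (fun v hv => hev v (Finset.mem_filter.1 hv).2)).1 h2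
    intro v
    by_cases hv : deg a b C v = 0
    · exact Or.inl hv
    · exact Or.inr (h3 v (Finset.mem_filter.2 ⟨Finset.mem_univ _, hv⟩)).symm
  · intro D hDC hDne hDC'
    by_contra hcon
    push Not at hcon
    apply hDC'
    refine hmin D hDC hDne ?_
    funext v
    rw [sum_gd_apply, Pi.zero_apply]
    by_cases hv : deg a b D v = 0
    · rw [hv, Nat.cast_zero]
    · have h1 := hcon v hv
      have h2 := deg_sdiff a b hDC v
      rw [h1, add_zero] at h2
      rw [← h2]
      exact heven v

end DBA
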