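import Pool.Agent.Lib.MP_dba578_co.DBA.Defs

/-!
# Board DBA, module Dec: even sets are disjoint unions of minimal nonempty even sets

* `exists_minEven`: a nonempty even `D` contains a minimal nonempty even set
(`Finset.exists_minimal`/strong induction on the cardinality).
* `dec_list`: strong induction on `#D`: `D = ∅`: the empty list.  Otherwise `C ⊆ D` minimal even,
`∑_{D \ C} = 0`, `l = C :: l'`.
* `dec_family`: concatenate the lists of the sets of the family (`Finset.univ.toList.flatMap`) and index the
list by `Fin l.length`: `#{j | e ∈ l.get j} = l.countP (e ∈ ·)`, and the countP of the concatenation is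
`∑_p (if e ∈ C p then 1 else 0) = #{p | e ∈ C p}`.
-/

set_option autoImplicit false

namespace DBA

variable {E W : Type} [DecidableEq E] [AddCommGroup W]

private theorem exists_minEven (d : E → W) (D : Finset E) (hD : ∑ e ∈ D, d e = 0)
    (hne : D.Nonempty) : ∃ C ⊆ D, MinEven d C := by
  classical
  have hmem : D ∈ D.powerset.filter (fun C => C.Nonempty ∧ ∑ e ∈ C, d e = 0) := by
    simp [hne, hD]
  obtain ⟨C, hC, hmin⟩ := Finset.exists_min_image
    (D.powerset.filter (fun C => C.Nonempty ∧ ∑ e ∈ C, d e = 0)) Finset.card ⟨D, hmem⟩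
  simp only [Finset.mem_filter, Finset.mem_powerset] at hC hmin
  refine ⟨C, hC.1, hC.2.1, hC.2.2, ?_⟩
  intro F hF hFn hFs
  exact Finset.eq_of_subset_of_card_le hF (hmin F ⟨hF.trans hC.1, hFn, hFs⟩)

/-- MODULE Dec (a). -/
theorem dec_list (d : E → W) (D : Finset E) (hD : ∑ e ∈ D, d e = 0) :
    ∃ l : List (Finset E), (∀ C ∈ l, MinEven d C) ∧
      ∀ e, l.countP (fun C => decide (e ∈ C)) = if e ∈ D then 1 else 0 := by
  induction D using Finset.strongInduction with
  | H D ih =>
    rcases D.eq_empty_or_nonempty with rfl | hne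
    · exact ⟨[], by simp, by simp⟩
    · obtain ⟨C, hCD, hC⟩ := exists_minEven d D hD hne
      have hss : D \ C ⊂ D := Finset.sdiff_ssubset hCD hC.1
      have hsum : ∑ e ∈ D \ C, d e = 0 := by
        have h1 := Finset.sum_sdiff (f := d) hCD
        rw [hC.2.1, add_zero, hD] at h1
        exact h1
      obtain ⟨l, hl, hc⟩ := ih (D \ C) hss hsum
      refine ⟨C :: l, ?_, ?_⟩
      · intro F hF
        rcases List.mem_cons.1 hF with rfl | hF
        · exact hC
        · exact hl F hF
      · intro e
        rw [List.countP_cons, hc e]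
        by_cases h1 : e ∈ C
        · have h2 : e ∈ D := hCD h1
          simp [h1, h2]
        · by_cases h2 : e ∈ D <;> simp [h1, h2]

private theorem card_get (l : List (Finset E)) (e : E) :
    (Finset.univ.filter (fun j : Fin l.length => e ∈ l.get j)).card =
      l.countP (fun C => decide (e ∈ C)) := by
  rw [Finset.card_filter]
  induction l with
  | nil => simp
  | cons C l ih =>
    rw [List.countP_cons, ← ih]
    rw [show (∑ i : Fin (C :: l).length, if e ∈ (C :: l).get i then 1 else 0) =
      ∑ i : Fin (l.length + 1), if e ∈ (C :: l).get i then 1 else 0 from rfl, Fin.sum_univ_succ]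
    simp [add_comm]

private theorem list_family (d : E → W) {ι : Type} (C : ι → Finset E)
    (hC : ∀ p, ∑ e ∈ C p, d e = 0) (s : Finset ι) :
    ∃ l : List (Finset E), (∀ C ∈ l, MinEven d C) ∧
      ∀ e, l.countP (fun C => decide (e ∈ C)) = (s.filter (fun p => e ∈ C p)).card := by
  classical
  induction s using Finset.induction_on with
  | empty => exact ⟨[], by simp, by simp⟩
  | insert a s ha ih =>
    obtain ⟨l, hl, hc⟩ := ih
    obtain ⟨l', hl', hc'⟩ := dec_list d (C a) (hC a)
    refine ⟨l' ++ l, ?_, ?_⟩
    · intro F hF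
      rcases List.mem_append.1 hF with hF | hF
      · exact hl' F hF
      · exact hl F hF
    · intro e
      rw [List.countP_append, hc e, hc' e, Finset.filter_insert]
      by_cases h : e ∈ C a
      · rw [if_pos h, if_pos h, Finset.card_insert_of_notMem (by simp [ha]), add_comm]
      · rw [if_neg h, if_neg h, zero_add]

/-- MODULE Dec (b). -/
theorem dec_family {ι : Type} [Fintype ι] (d : E → W) (C : ι → Finset E)
    (hC : ∀ p, ∑ e ∈ C p, d e = 0) :
    ∃ (k : ℕ) (M : Fin k → Finset E), (∀ j, MinEven d (M j)) ∧
      ∀ e, (Finset.univ.filter (fun j : Fin k => e ∈ M j)).card =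
        (Finset.univ.filter (fun p : ι => e ∈ C p)).card := by
  obtain ⟨l, hl, hc⟩ := list_family d C hC Finset.univ
  exact ⟨l.length, l.get, fun j => hl _ (List.get_mem l j), fun e => by rw [card_get, hc e]⟩

end DBA
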