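import Mathlib

/-!
# MP_dba578_co (Seymour's even cycle cover conjecture): weights of large strength.  Definitions.

(helper39's theorem, local version by helper32; board DBA.)
-/

set_option autoImplicit false

namespace DBA

/-- Integer rank functions of matroids (loops allowed) on a type `S`. -/
structure IsRank {S : Type} [DecidableEq S] (r : Finset S → ℕ) : Prop where
  empty : r ∅ = 0
  mono : ∀ A B : Finset S, A ⊆ B → r A ≤ r B
  insert_le : ∀ (A : Finset S) (e : S), r (insert e A) ≤ r A + 1
  submod : ∀ A B : Finset S, r (A ∪ B) + r (A ∩ B) ≤ r A + r B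

/-- The elements of `F` outside the closure of `Z`. -/
def out {S : Type} [DecidableEq S] (r : Finset S → ℕ) (F Z : Finset S) : Finset S :=
  F.filter (fun e => r (insert e Z) ≠ r Z)

/-- `F` is thick at level `s` (for the weights `y`): for every `Z ⊆ F` the elements of `F` outside
the closure of `Z` have total weight at least `2 s (r F - r Z)`. -/
def Thick {S : Type} [DecidableEq S] (r : Finset S → ℕ) (y : S → ℕ) (s : ℕ) (F : Finset S) : Prop :=
  ∀ Z ⊆ F, 2 * s * r F ≤ 2 * s * r Z + ∑ e ∈ out r F Z, y e

/-- The linear rank of a set of indices. -/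
noncomputable def rk {E W : Type} [AddCommGroup W] [Module (ZMod 2) W] (d : E → W)
    (F : Finset E) : ℕ :=
  Module.finrank (ZMod 2) (Submodule.span (ZMod 2) (d '' (F : Set E)))

/-- Minimal nonempty set with sum zero (circuit of the binary matroid of `d`). -/
def MinEven {E W : Type} [AddCommGroup W] (d : E → W) (C : Finset E) : Prop :=
  C.Nonempty ∧ ∑ e ∈ C, d e = 0 ∧ ∀ D ⊆ C, D.Nonempty → ∑ e ∈ D, d e = 0 → D = C

section Graph

variable {V E : Type}

/-- The degree of the vertex `v` in the set `C` of edges (a loop counts twice). -/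
def deg [DecidableEq V] (a b : E → V) (C : Finset E) (v : V) : ℕ :=
  (C.filter (fun e => a e = v)).card + (C.filter (fun e => b e = v)).card

/-- Cycles: the edge sets of connected 2-regular subgraphs. -/
def IsCycle [DecidableEq V] [DecidableEq E] (a b : E → V) (C : Finset E) : Prop :=
  C.Nonempty ∧ (∀ v, deg a b C v = 0 ∨ deg a b C v = 2) ∧
    ∀ D ⊆ C, D.Nonempty → D ≠ C → ∃ v, deg a b D v ≠ 0 ∧ deg a b (C \ D) v ≠ 0

/-- The vector over `F_2` of an edge. -/
def gd [DecidableEq V] (a b : E → V) (e : E) : V → ZMod 2 :=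
  Pi.single (a e) 1 + Pi.single (b e) 1

/-- The partition condition of Nash-Williams and Tutte for `k` edge-disjoint spanning trees in the
multigraph with vertex set `K` and `x f` copies of every edge `f` with both ends in `K`. -/
def TreeDense [DecidableEq V] [Fintype E] (a b : E → V) (x : E → ℕ) (k : ℕ) (K : Finset V) : Prop :=
  ∀ f : V → V, k * ((K.image f).card - 1) ≤
    ∑ g ∈ Finset.univ.filter (fun g : E => a g ∈ K ∧ b g ∈ K ∧ f (a g) ≠ f (b g)), x g

/-- Every edge cut of the subgraph induced on `K` has weight at least `k`. -/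
def CutDense [DecidableEq V] [Fintype E] (a b : E → V) (x : E → ℕ) (k : ℕ) (K : Finset V) : Prop :=
  ∀ X ⊆ K, X.Nonempty → X ≠ K → k ≤
    ∑ g ∈ Finset.univ.filter (fun g : E => (a g ∈ X ∧ b g ∈ K \ X) ∨ (b g ∈ X ∧ a g ∈ K \ X)), x g

/-- `x` is a nonnegative integer combination of incidence vectors of cycles. -/
def IsSumOfCycles [DecidableEq V] [DecidableEq E] (a b : E → V) (x : E → ℕ) : Prop :=
  ∃ (k : ℕ) (C : Fin k → Finset E), (∀ j, IsCycle a b (C j)) ∧
    ∀ e, x e = (Finset.univ.filter (fun j : Fin k => e ∈ C j)).card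

end Graph

end DBA
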