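import Pool.Agent.Lib.MP_dba578_co.DBA.Defs

/-!
# Board DBA, module Even: even sets covering every edge `2 y e` times

* `exists_subset_sum`: an element of the span over `ZMod 2` of `d '' A` is a subset sum (coefficients are 0
or 1; `Submodule.span_induction`: zero ↦ `∅`, `d e` ↦ `{e}`, sum ↦ symmetric difference (over characteristic 2,
`∑_{symmDiff} = ∑ + ∑`), scalar 0/1).
* `layer`: `S`, `A, B ⊆ S` disjoint, all `d e` (`e ∈ S`) in both spans.  `∑_{S \ A} d e = ∑_{A'} d e` for some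
`A' ⊆ A`; `P = (S \ A) ∪ A'`; the same with `B`: `Q = (S \ B) ∪ B'`.  `P ∪ Q = S` as `A ∩ B = ∅`.
* `even_cover`: for every `e` choose `J e ⊆ {i | e ∈ F i}` with `{i | e ∈ A i ∪ B i} ⊆ J e` and `#(J e) = y e`
(`Finset.exists_subsuperset_card_eq`); `S i = {e | i ∈ J e} ⊆ F i`.  Apply `layer` to every `i`;
`C (i, 0) = P i`, `C (i, 1) = Q i`, `C (i, 2) = symmDiff (P i) (Q i)`; `e ∈ S i` lies in exactly two of the
three sets, `e ∉ S i` in none.
-/

set_option autoImplicit false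

namespace DBA

variable {E W : Type} [DecidableEq E] [AddCommGroup W] [Module (ZMod 2) W]

private theorem evAddSelf {W : Type} [AddCommGroup W] [Module (ZMod 2) W] (w : W) :
    w + w = 0 := by
  have h : ((1 : ZMod 2) + 1) • w = 0 := by
    have h2 : ((1 : ZMod 2) + 1) = 0 := by decide
    rw [h2, zero_smul]
  rw [add_smul, one_smul] at h
  exact h

private theorem evSumSymm (d : E → W) (A B : Finset E) :
    ∑ e ∈ symmDiff A B, d e = ∑ e ∈ A, d e + ∑ e ∈ B, d e := by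
  have h1 : ∑ e ∈ A, d e = ∑ e ∈ A \ B, d e + ∑ e ∈ A ∩ B, d e := by
    rw [add_comm]; exact (Finset.sum_inter_add_sum_sdiff A B d).symm
  have h2 : ∑ e ∈ B, d e = ∑ e ∈ B \ A, d e + ∑ e ∈ A ∩ B, d e := by
    rw [add_comm, Finset.inter_comm A B]; exact (Finset.sum_inter_add_sum_sdiff B A d).symm
  have h3 : ∑ e ∈ symmDiff A B, d e = ∑ e ∈ A \ B, d e + ∑ e ∈ B \ A, d e := by
    have : symmDiff A B = (A \ B) ∪ (B \ A) := rfl
    rw [this, Finset.sum_union]
    rw [Finset.disjoint_left]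
    intro x hx hx'
    rw [Finset.mem_sdiff] at hx hx'
    exact hx.2 hx'.1
  rw [h1, h2, h3]
  have h4 := evAddSelf (∑ e ∈ A ∩ B, d e)
  calc ∑ e ∈ A \ B, d e + ∑ e ∈ B \ A, d e
      = ∑ e ∈ A \ B, d e + ∑ e ∈ B \ A, d e + (∑ e ∈ A ∩ B, d e + ∑ e ∈ A ∩ B, d e) := by
        rw [h4, add_zero]
    _ = _ := by abel

/-- MODULE Even (a). -/
theorem exists_subset_sum (d : E → W) (A : Finset E) (w : W)
    (hw : w ∈ Submodule.span (ZMod 2) (d '' (A : Set E))) : ∃ A' ⊆ A, ∑ e ∈ A', d e = w := by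
  induction hw using Submodule.span_induction with
  | mem x hx =>
    obtain ⟨e, he, rfl⟩ := hx
    refine ⟨{e}, ?_, by simp⟩
    simpa using he
  | zero => exact ⟨∅, by simp, by simp⟩
  | add x y _ _ hx hy =>
    obtain ⟨A1, h1, rfl⟩ := hx
    obtain ⟨A2, h2, rfl⟩ := hy
    refine ⟨symmDiff A1 A2, ?_, evSumSymm d A1 A2⟩
    intro x hx
    rw [Finset.mem_symmDiff] at hx
    rcases hx with hx | hx
    · exact h1 hx.1
    · exact h2 hx.1
  | smul c x _ hx =>
    obtain ⟨A1, h1, rfl⟩ := hx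
    have hc : c = 0 ∨ c = 1 := by revert c; decide
    rcases hc with rfl | rfl
    · exact ⟨∅, by simp, by simp⟩
    · exact ⟨A1, h1, by rw [one_smul]⟩

private theorem evHalf (d : E → W) (S A : Finset E) (hA : A ⊆ S)
    (hSA : ∀ e ∈ S, d e ∈ Submodule.span (ZMod 2) (d '' (A : Set E))) :
    ∃ P : Finset E, ∑ e ∈ P, d e = 0 ∧ S \ A ⊆ P ∧ P ⊆ S := by
  have hw : ∑ e ∈ S \ A, d e ∈ Submodule.span (ZMod 2) (d '' (A : Set E)) :=
    Submodule.sum_mem _ fun e he => hSA e (Finset.mem_sdiff.1 he).1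
  obtain ⟨A', hA', hs⟩ := exists_subset_sum d A _ hw
  refine ⟨(S \ A) ∪ A', ?_, Finset.subset_union_left,
    Finset.union_subset Finset.sdiff_subset (hA'.trans hA)⟩
  rw [Finset.sum_union, hs]
  · exact evAddSelf _
  · rw [Finset.disjoint_left]
    intro x hx hx'
    exact (Finset.mem_sdiff.1 hx).2 (hA' hx')

/-- MODULE Even (b). -/
theorem layer (d : E → W) (S A B : Finset E) (hA : A ⊆ S) (hB : B ⊆ S) (hAB : Disjoint A B)
    (hSA : ∀ e ∈ S, d e ∈ Submodule.span (ZMod 2) (d '' (A : Set E)))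
    (hSB : ∀ e ∈ S, d e ∈ Submodule.span (ZMod 2) (d '' (B : Set E))) :
    ∃ P Q : Finset E, ∑ e ∈ P, d e = 0 ∧ ∑ e ∈ Q, d e = 0 ∧ P ∪ Q = S := by
  obtain ⟨P, hP, hP1, hP2⟩ := evHalf d S A hA hSA
  obtain ⟨Q, hQ, hQ1, hQ2⟩ := evHalf d S B hB hSB
  refine ⟨P, Q, hP, hQ, ?_⟩
  apply Finset.Subset.antisymm (Finset.union_subset hP2 hQ2)
  intro x hx
  rw [Finset.mem_union]
  by_cases hxA : x ∈ A
  · right
    exact hQ1 (Finset.mem_sdiff.2 ⟨hx, fun h => Finset.disjoint_left.1 hAB hxA h⟩)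
  · left
    exact hP1 (Finset.mem_sdiff.2 ⟨hx, hxA⟩)

/-- MODULE Even (c). -/
theorem even_cover [Fintype E] (d : E → W) {m : ℕ} (F A B : Fin m → Finset E) (y : E → ℕ)
    (hA : ∀ i, A i ⊆ F i) (hB : ∀ i, B i ⊆ F i) (hAB : ∀ i, Disjoint (A i) (B i))
    (hsA : ∀ i, ∀ e ∈ F i, d e ∈ Submodule.span (ZMod 2) (d '' (A i : Set E)))
    (hsB : ∀ i, ∀ e ∈ F i, d e ∈ Submodule.span (ZMod 2) (d '' (B i : Set E)))
    (hle : ∀ e, (Finset.univ.filter (fun i : Fin m => e ∈ A i ∪ B i)).card ≤ y e)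
    (hy : ∀ e, y e ≤ (Finset.univ.filter (fun i : Fin m => e ∈ F i)).card) :
    ∃ C : Fin m × Fin 3 → Finset E, (∀ p, ∑ e ∈ C p, d e = 0) ∧
      ∀ e, (Finset.univ.filter (fun p => e ∈ C p)).card = 2 * y e := by
  classical
  have hJ : ∀ e, ∃ J : Finset (Fin m), Finset.univ.filter (fun i : Fin m => e ∈ A i ∪ B i) ⊆ J ∧
      J ⊆ Finset.univ.filter (fun i : Fin m => e ∈ F i) ∧ J.card = y e := by
    intro e
    apply Finset.exists_subsuperset_card_eq _ (hle e) (hy e)
    intro i hi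
    rw [Finset.mem_filter] at hi ⊢
    refine ⟨hi.1, ?_⟩
    rcases Finset.mem_union.1 hi.2 with h | h
    · exact hA i h
    · exact hB i h
  choose J hJ1 hJ2 hJ3 using hJ
  have hS : ∀ i : Fin m, ∃ P Q : Finset E, ∑ e ∈ P, d e = 0 ∧ ∑ e ∈ Q, d e = 0 ∧
      P ∪ Q = Finset.univ.filter (fun e => i ∈ J e) := by
    intro i
    have hSF : ∀ e ∈ Finset.univ.filter (fun e => i ∈ J e), e ∈ F i := by
      intro e he
      exact (Finset.mem_filter.1 (hJ2 e (Finset.mem_filter.1 he).2)).2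
    apply layer d _ (A i) (B i) _ _ (hAB i) (fun e he => hsA i e (hSF e he))
      (fun e he => hsB i e (hSF e he))
    · intro e he
      rw [Finset.mem_filter]
      exact ⟨Finset.mem_univ _, hJ1 e (Finset.mem_filter.2 ⟨Finset.mem_univ _,
        Finset.mem_union_left _ he⟩)⟩
    · intro e he
      rw [Finset.mem_filter]
      exact ⟨Finset.mem_univ _, hJ1 e (Finset.mem_filter.2 ⟨Finset.mem_univ _,
        Finset.mem_union_right _ he⟩)⟩
  choose P Q hP hQ hPQ using hS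
  refine ⟨fun p => if p.2 = 0 then P p.1 else if p.2 = 1 then Q p.1 else symmDiff (P p.1) (Q p.1),
    ?_, ?_⟩
  · rintro ⟨i, j⟩
    dsimp only
    split_ifs
    · exact hP i
    · exact hQ i
    · rw [evSumSymm, hP i, hQ i, add_zero]
  · intro e
    rw [Finset.card_filter, Fintype.sum_prod_type]
    have h1 : ∀ i : Fin m, (∑ j : Fin 3, if e ∈ (if j = 0 then P i else if j = 1 then Q i
        else symmDiff (P i) (Q i)) then 1 else 0) = if i ∈ J e then 2 else 0 := by
      intro i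
      have h2 : e ∈ P i ∪ Q i ↔ i ∈ J e := by
        rw [hPQ i, Finset.mem_filter]; simp
      rw [Fin.sum_univ_three]
      by_cases h3 : e ∈ P i <;> by_cases h4 : e ∈ Q i
      · have h5 : i ∈ J e := h2.1 (Finset.mem_union_left _ h3)
        have h6 : e ∉ symmDiff (P i) (Q i) := by
          rw [Finset.mem_symmDiff]; tauto
        simp [h3, h4, h5, h6]
      · have h5 : i ∈ J e := h2.1 (Finset.mem_union_left _ h3)
        have h6 : e ∈ symmDiff (P i) (Q i) := by
          rw [Finset.mem_symmDiff]; tauto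
        simp [h3, h4, h5, h6]
      · have h5 : i ∈ J e := h2.1 (Finset.mem_union_right _ h4)
        have h6 : e ∈ symmDiff (P i) (Q i) := by
          rw [Finset.mem_symmDiff]; tauto
        simp [h3, h4, h5, h6]
      · have h5 : i ∉ J e := by
          rw [← h2, Finset.mem_union]; tauto
        have h6 : e ∉ symmDiff (P i) (Q i) := by
          rw [Finset.mem_symmDiff]; tauto
        simp [h3, h4, h5, h6]
    calc _ = ∑ i : Fin m, (if i ∈ J e then 2 else 0) := Finset.sum_congr rfl fun i _ => h1 i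
      _ = 2 * y e := by
        rw [← Finset.sum_filter, Finset.sum_const, smul_eq_mul, mul_comm]
        congr 1
        rw [← hJ3 e]
        congr 1
        ext i
        simp

end DBA
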