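import Pool.Agent.Lib.MP_dba578_co.DBA.ThickAB

/-!
# Board DBA, module Level4: the inequality of the level weights, general levels

Levels `m e` with `y e ≤ 2 * m e`, a set `G e` containing `e`; `L i` is the union of the `G e` with
`i ≤ m e`.
* `step`: for `Z ⊇ L (i + 1)` the hypothesis for the sets `G e` with `m e = i` gives
`2 i r (L i ∪ Z) ≤ 2 i r Z + ∑_{e ∈ out r (L i) Z} min (y e) (2 i - y e)`.
* `level_ineq4`: with `h e = #{i < M : e ∈ L (i + 1)}`, `c e = min (y e) (2 h e - y e)`, for `Z ⊆ L (i + 1)`: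
`2 r (L (i+1)) ≤ 2 r Z + ∑_{e ∈ out r (L (i+1)) Z} c e / h e`.
-/

set_option autoImplicit false

namespace DBA

variable {S : Type} [DecidableEq S] {r : Finset S → ℕ}

/-- The union of the sets of level at least `i`. -/
def LL [Fintype S] (m : S → ℕ) (G : S → Finset S) (i : ℕ) : Finset S :=
  Finset.univ.filter (fun g => ∃ e, i ≤ m e ∧ g ∈ G e)

private theorem step_aux [Fintype S] (hr : IsRank r) (y m : S → ℕ) (G : S → Finset S)
    (H : ∀ e, ∀ Z : Finset S, (∀ g, m e < m g → g ∈ Z) →
      2 * m e * r (G e ∪ Z) ≤ 2 * m e * r Z + ∑ g ∈ out r (G e) Z, min (y g) (2 * m e - y g))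
    (i : ℕ) (Z : Finset S) (hZ : ∀ g, i < m g → g ∈ Z) (P : Finset S) (hP : ∀ e ∈ P, m e = i) :
    2 * i * r (P.biUnion G ∪ Z) ≤ 2 * i * r Z +
      ∑ g ∈ out r (P.biUnion G) Z, min (y g) (2 * i - y g) := by
  induction P using Finset.induction_on with
  | empty => simp
  | insert e P he ih =>
    have ih' := ih fun e' he' => hP e' (Finset.mem_insert_of_mem he')
    have hme : m e = i := hP e (Finset.mem_insert_self _ _)
    have h1 := H e (P.biUnion G ∪ Z) (fun g hg => Finset.mem_union_right _ (hZ g (hme ▸ hg)))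
    rw [hme] at h1
    have h2 : (insert e P).biUnion G ∪ Z = G e ∪ (P.biUnion G ∪ Z) := by
      rw [Finset.biUnion_insert, Finset.union_assoc]
    rw [h2]
    have hd : Disjoint (out r (G e) (P.biUnion G ∪ Z)) (out r (P.biUnion G) Z) := by
      rw [Finset.disjoint_left]
      intro g hg hg'
      unfold out at hg hg'
      rw [Finset.mem_filter] at hg hg'
      exact hg.2 (by rw [Finset.insert_eq_of_mem (Finset.mem_union_left _ hg'.1)])
    have h3 : out r (G e) (P.biUnion G ∪ Z) ∪ out r (P.biUnion G) Z ⊆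
        out r ((insert e P).biUnion G) Z := by
      intro g hg
      rw [Finset.mem_union] at hg
      unfold out at hg ⊢
      rw [Finset.mem_filter, Finset.mem_filter] at hg
      rw [Finset.mem_filter, Finset.biUnion_insert]
      rcases hg with hg | hg
      · exact ⟨Finset.mem_union_left _ hg.1,
          fun h => hg.2 (closure_mono hr Finset.subset_union_right h)⟩
      · exact ⟨Finset.mem_union_right _ hg.1, hg.2⟩
    have h4 : ∑ g ∈ out r (G e) (P.biUnion G ∪ Z), min (y g) (2 * i - y g) +
        ∑ g ∈ out r (P.biUnion G) Z, min (y g) (2 * i - y g) ≤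
        ∑ g ∈ out r ((insert e P).biUnion G) Z, min (y g) (2 * i - y g) := by
      rw [← Finset.sum_union hd]
      exact Finset.sum_le_sum_of_subset h3
    omega

/-- The step inequality. -/
theorem level_step [Fintype S] (hr : IsRank r) (y m : S → ℕ) (G : S → Finset S)
    (hG : ∀ e, e ∈ G e)
    (H : ∀ e, ∀ Z : Finset S, (∀ g, m e < m g → g ∈ Z) →
      2 * m e * r (G e ∪ Z) ≤ 2 * m e * r Z + ∑ g ∈ out r (G e) Z, min (y g) (2 * m e - y g))
    (i : ℕ) (Z : Finset S) (hZ : LL m G (i + 1) ⊆ Z) :
    2 * i * r (LL m G i ∪ Z) ≤ 2 * i * r Z +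
      ∑ g ∈ out r (LL m G i) Z, min (y g) (2 * i - y g) := by
  have hZ' : ∀ g, i < m g → g ∈ Z := by
    intro g hg
    apply hZ
    unfold LL
    rw [Finset.mem_filter]
    exact ⟨Finset.mem_univ _, g, hg, hG g⟩
  have h1 := step_aux hr y m G H i Z hZ' (Finset.univ.filter fun e => m e = i)
    (fun e he => (Finset.mem_filter.1 he).2)
  have h2 : (Finset.univ.filter fun e => m e = i).biUnion G ∪ Z = LL m G i ∪ Z := by
    ext g
    rw [Finset.mem_union, Finset.mem_union, Finset.mem_biUnion]
    constructor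
    · rintro (⟨e, he, hg⟩ | hg)
      · left
        unfold LL
        rw [Finset.mem_filter] at he ⊢
        exact ⟨Finset.mem_univ _, e, he.2.ge, hg⟩
      · exact Or.inr hg
    · rintro (hg | hg)
      · unfold LL at hg
        rw [Finset.mem_filter] at hg
        obtain ⟨-, e, he, hge⟩ := hg
        rcases Nat.eq_or_lt_of_le he with h | h
        · left
          exact ⟨e, by rw [Finset.mem_filter]; exact ⟨Finset.mem_univ _, h.symm⟩, hge⟩
        · right
          apply hZ
          unfold LL
          rw [Finset.mem_filter]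
          exact ⟨Finset.mem_univ _, e, h, hge⟩
      · exact Or.inr hg
  rw [h2] at h1
  refine h1.trans (Nat.add_le_add_left (Finset.sum_le_sum_of_subset ?_) _)
  intro g hg
  unfold out at hg ⊢
  rw [Finset.mem_filter] at hg ⊢
  refine ⟨?_, hg.2⟩
  obtain ⟨e, he, hge⟩ := Finset.mem_biUnion.1 hg.1
  rw [Finset.mem_filter] at he
  unfold LL
  rw [Finset.mem_filter]
  exact ⟨Finset.mem_univ _, e, he.2.ge, hge⟩

/-- The set of level `i + 1`, empty for `i = M`. -/
private def FF (L : ℕ → Finset S) (M i : ℕ) : Finset S := if i < M then L (i + 1) else ∅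

private theorem anti {L : ℕ → Finset S} (hL : ∀ i, L (i + 1) ⊆ L i) {i j : ℕ} (hij : i ≤ j) :
    L j ⊆ L i := by
  induction j, hij using Nat.le_induction with
  | base => exact Finset.Subset.refl _
  | succ j _ ih => exact (hL j).trans ih

private theorem card_eq (L : ℕ → Finset S) (hL : ∀ i, L (i + 1) ⊆ L i) {M i : ℕ} (hi : i < M)
    {e : S} (he : e ∈ L (i + 1)) (he' : e ∉ FF L M (i + 1)) :
    (Finset.univ.filter (fun j : Fin M => e ∈ L (j + 1))).card = i + 1 := by
  have hset : (Finset.univ.filter (fun j : Fin M => e ∈ L (j + 1))) =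
      Finset.univ.filter (fun j : Fin M => (j : ℕ) < i + 1) := by
    ext j
    simp only [Finset.mem_filter, Finset.mem_univ, true_and]
    constructor
    · intro h
      by_contra hlt
      have hij : i + 1 ≤ (j : ℕ) := by omega
      have him : i + 1 < M := lt_of_le_of_lt hij j.2
      apply he'
      unfold FF
      rw [if_pos him]
      exact anti hL (by omega : i + 1 + 1 ≤ (j : ℕ) + 1) h
    · intro h
      exact anti hL (by omega : (j : ℕ) + 1 ≤ i + 1) he
  rw [hset]
  have h1 : (Finset.univ.filter (fun j : Fin M => (j : ℕ) < i + 1)).card = min M (i + 1) := by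
    rw [← Fin.card_filter_val_lt]
  rw [h1]
  omega

private theorem main (hr : IsRank r) (y : S → ℕ) (L : ℕ → Finset S) (hL : ∀ i, L (i + 1) ⊆ L i)
    (M : ℕ) (hM : L (M + 1) = ∅)
    (hT : ∀ i, ∀ Z : Finset S, L (i + 1) ⊆ Z → 2 * i * r (L i ∪ Z) ≤ 2 * i * r Z +
      ∑ g ∈ out r (L i) Z, min (y g) (2 * i - y g)) :
    ∀ n i : ℕ, i + n = M → ∀ Z ⊆ FF L M i,
    2 * (r (FF L M i) : ℚ) ≤ 2 * r Z +
      ∑ e ∈ out r (FF L M i) Z,
        ((min (y e) (2 * (Finset.univ.filter (fun j : Fin M => e ∈ L (j + 1))).card - y e) : ℕ) : ℚ) /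
          (Finset.univ.filter (fun j : Fin M => e ∈ L (j + 1))).card := by
  intro n
  induction n with
  | zero =>
    intro i hi Z hZ
    have hFF : FF L M i = ∅ := by
      unfold FF
      rw [if_neg (by omega)]
    rw [hFF, hr.empty]
    have h1 : (0 : ℚ) ≤ ∑ e ∈ out r (∅ : Finset S) Z,
        ((min (y e) (2 * (Finset.univ.filter (fun j : Fin M => e ∈ L (j + 1))).card - y e) : ℕ) : ℚ) /
          (Finset.univ.filter (fun j : Fin M => e ∈ L (j + 1))).card :=
      Finset.sum_nonneg (fun e _ => by positivity)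
    have h2 : (0 : ℚ) ≤ 2 * (r Z : ℚ) := by positivity
    push_cast at h1 ⊢
    linarith
  | succ n ih =>
    intro i hi Z hZ
    have him : i < M := by omega
    have hF : FF L M i = L (i + 1) := by
      unfold FF
      rw [if_pos him]
    rw [hF] at hZ ⊢
    have hF'F : FF L M (i + 1) ⊆ L (i + 1) := by
      unfold FF
      split_ifs with h
      · exact hL (i + 1)
      · exact Finset.empty_subset _
    have hLF' : L (i + 1 + 1) ⊆ FF L M (i + 1) := by
      unfold FF
      split_ifs with h
      · exact Finset.Subset.refl _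
      · have : i + 1 + 1 = M + 1 := by omega
        rw [this, hM]
    set F' := FF L M (i + 1) with hF'def
    set F := L (i + 1) with hFdef
    set Z1 := F'.filter (fun e => r (insert e Z) = r Z) with hZ1
    have hZ1F' : Z1 ⊆ F' := Finset.filter_subset _ _
    have hih := ih (i + 1) (by omega) Z1 (by rw [← hF'def]; exact hZ1F')
    rw [← hF'def] at hih
    have hth := hT (i + 1) (Z ∪ F') (hLF'.trans Finset.subset_union_right)
    have hFun : F ∪ (Z ∪ F') = F := Finset.union_eq_left.2 (Finset.union_subset hZ hF'F)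
    rw [← hFdef, hFun] at hth
    -- submodularity
    have hrT : r (Z ∪ Z1) = r Z := by
      apply rank_eq_of_closure hr Finset.subset_union_left
      intro e he
      rw [Finset.mem_union] at he
      rcases he with he | he
      · rw [Finset.insert_eq_of_mem he]
      · exact (Finset.mem_filter.1 he).2
    have hsub := hr.submod (Z ∪ Z1) F'
    have hun : Z ∪ Z1 ∪ F' = Z ∪ F' := by
      rw [Finset.union_assoc, Finset.union_eq_right.2 hZ1F']
    have hin : r Z1 ≤ r ((Z ∪ Z1) ∩ F') :=
      hr.mono _ _ (Finset.subset_inter Finset.subset_union_right hZ1F')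
    rw [hun, hrT] at hsub
    have hsm : r (Z ∪ F') + r Z1 ≤ r Z + r F' := le_trans (Nat.add_le_add_left hin _) hsub
    -- the two sets of elements
    set w : S → ℚ := fun e =>
      ((min (y e) (2 * (Finset.univ.filter (fun j : Fin M => e ∈ L (j + 1))).card - y e) : ℕ) : ℚ) /
        (Finset.univ.filter (fun j : Fin M => e ∈ L (j + 1))).card with hw
    have hwnn : ∀ e, 0 ≤ w e := fun e => by
      simp only [hw]
      exact div_nonneg (Nat.cast_nonneg _) (Nat.cast_nonneg _)
    have hBsub : out r F' Z1 ⊆ out r F Z := by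
      intro e he
      unfold out at he ⊢
      rw [Finset.mem_filter] at he ⊢
      refine ⟨hF'F he.1, fun h => he.2 ?_⟩
      have : e ∈ Z1 := Finset.mem_filter.2 ⟨he.1, h⟩
      rw [Finset.insert_eq_of_mem this]
    have hAnot : ∀ e ∈ out r F (Z ∪ F'), e ∉ F' := by
      intro e he hF'
      unfold out at he
      rw [Finset.mem_filter] at he
      exact he.2 (by rw [Finset.insert_eq_of_mem (Finset.mem_union_right _ hF')])
    have hAsub : out r F (Z ∪ F') ⊆ out r F Z := by
      intro e he
      unfold out at he ⊢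
      rw [Finset.mem_filter] at he ⊢
      exact ⟨he.1, fun h => he.2 (closure_mono hr Finset.subset_union_left h)⟩
    have hdisj : Disjoint (out r F (Z ∪ F')) (out r F' Z1) := by
      rw [Finset.disjoint_left]
      intro e he he'
      unfold out at he'
      rw [Finset.mem_filter] at he'
      exact hAnot e he he'.1
    have hsum : ∑ e ∈ out r F (Z ∪ F'), w e + ∑ e ∈ out r F' Z1, w e ≤ ∑ e ∈ out r F Z, w e := by
      rw [← Finset.sum_union hdisj]
      exact Finset.sum_le_sum_of_subset_of_nonneg (Finset.union_subset hAsub hBsub)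
        (fun e _ _ => hwnn e)
    have hA : ∑ e ∈ out r F (Z ∪ F'), w e =
        (((∑ e ∈ out r F (Z ∪ F'), min (y e) (2 * (i + 1) - y e) : ℕ)) : ℚ) / ((i : ℚ) + 1) := by
      rw [Nat.cast_sum, Finset.sum_div]
      apply Finset.sum_congr rfl
      intro e he
      simp only [hw]
      have heF : e ∈ L (i + 1) := by
        unfold out at he
        exact (Finset.mem_filter.1 he).1
      rw [card_eq L hL him heF (hAnot e he)]
      push_cast
      rfl
    have hthQ : 2 * ((i : ℚ) + 1) * (r F : ℚ) ≤ 2 * ((i : ℚ) + 1) * (r (Z ∪ F') : ℚ) +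
        ((∑ e ∈ out r F (Z ∪ F'), min (y e) (2 * (i + 1) - y e) : ℕ) : ℚ) := by
      have := hth
      exact_mod_cast this
    have hpos : (0 : ℚ) < (i : ℚ) + 1 := by positivity
    have hdiv : 2 * (r F : ℚ) ≤ 2 * (r (Z ∪ F') : ℚ) + ∑ e ∈ out r F (Z ∪ F'), w e := by
      rw [hA, ← sub_le_iff_le_add', le_div_iff₀ hpos]
      linarith
    have hsmQ : (r (Z ∪ F') : ℚ) + (r Z1 : ℚ) ≤ (r Z : ℚ) + (r F' : ℚ) := by
      exact_mod_cast hsm
    linarith

/-- The level inequality. -/
theorem level_ineq4 [Fintype S] (hr : IsRank r) (y m : S → ℕ) (G : S → Finset S)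
    (hG : ∀ e, e ∈ G e)
    (H : ∀ e, ∀ Z : Finset S, (∀ g, m e < m g → g ∈ Z) →
      2 * m e * r (G e ∪ Z) ≤ 2 * m e * r Z + ∑ g ∈ out r (G e) Z, min (y g) (2 * m e - y g))
    (M : ℕ) (hM : ∀ e, m e ≤ M) (i : ℕ) (hi : i < M) (Z : Finset S) (hZ : Z ⊆ LL m G (i + 1)) :
    2 * (r (LL m G (i + 1)) : ℚ) ≤ 2 * r Z +
      ∑ e ∈ out r (LL m G (i + 1)) Z,
        ((min (y e) (2 * (Finset.univ.filter (fun j : Fin M => e ∈ LL m G (j + 1))).card - y e) : ℕ) :
          ℚ) / (Finset.univ.filter (fun j : Fin M => e ∈ LL m G (j + 1))).card := by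
  have hL : ∀ i, LL m G (i + 1) ⊆ LL m G i := by
    intro i g hg
    unfold LL at hg ⊢
    rw [Finset.mem_filter] at hg ⊢
    obtain ⟨h1, e, h2, h3⟩ := hg
    exact ⟨h1, e, by omega, h3⟩
  have hM' : LL m G (M + 1) = ∅ := by
    unfold LL
    rw [Finset.filter_eq_empty_iff]
    rintro g - ⟨e, he, -⟩
    have := hM e
    omega
  have h := main hr y (LL m G) hL M hM' (fun i Z hZ => level_step hr y m G hG H i Z hZ)
    (M - i) i (by omega) Z (by
      unfold FF
      rw [if_pos hi]
      exact hZ)
  have hF : FF (LL m G) M i = LL m G (i + 1) := by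
    unfold FF
    rw [if_pos hi]
  rw [hF] at h
  exact h

end DBA
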