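import Pool.Agent.Lib.MP_dba578_co.DBA.Defs

/-!
# Board DBA, module Lin: the linear rank is a rank function

* `rk_isRank`: `rk d ∅ = 0`; monotone (`Submodule.finrank_mono`, `Submodule.span_mono`); one more vector
raises the dimension by at most one (`span (insert v s) = span {v} ⊔ span s`,
`Submodule.finrank_add_le_finrank_add_finrank`, `finrank_span_singleton`/`finrank_span_le_card`);
submodular: `span (d '' (A ∪ B)) = span (d '' A) ⊔ span (d '' B)`,
`span (d '' (A ∩ B)) ≤ span (d '' A) ⊓ span (d '' B)` and `Submodule.finrank_sup_add_finrank_inf_eq`.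
* `rk_le_card`: `finrank_span_finset_le_card`-type lemma (or induction with `insert_le`).
* `rk_insert_eq_iff`: `d e ∈ span` iff adding it does not change the span iff it does not change the
dimension (`Submodule.eq_of_le_of_finrank_eq`).
* `span_eq_of_rk_eq`: `Submodule.eq_of_le_of_finrank_eq`.
-/

set_option autoImplicit false

namespace DBA

variable {E W : Type} [DecidableEq E] [AddCommGroup W] [Module (ZMod 2) W] [Module.Finite (ZMod 2) W]

/-- MODULE Lin (a). -/
theorem rk_isRank (d : E → W) : IsRank (rk d) := by
  refine ⟨?_, ?_, ?_, ?_⟩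
  · unfold rk
    simp
  · intro A B hAB
    unfold rk
    exact Submodule.finrank_mono (Submodule.span_mono (Set.image_mono (by exact_mod_cast hAB)))
  · intro A e
    unfold rk
    rw [Finset.coe_insert, Set.image_insert_eq, Submodule.span_insert]
    have h1 := Submodule.finrank_add_le_finrank_add_finrank (K := ZMod 2)
      (Submodule.span (ZMod 2) {d e}) (Submodule.span (ZMod 2) (d '' (A : Set E)))
    have h2 : Module.finrank (ZMod 2) (Submodule.span (ZMod 2) {d e}) ≤ 1 :=
      (finrank_span_le_card (R := ZMod 2) ({d e} : Set W)).trans (by simp)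
    omega
  · intro A B
    unfold rk
    rw [Finset.coe_union, Set.image_union, Submodule.span_union]
    have h1 := Submodule.finrank_sup_add_finrank_inf_eq (K := ZMod 2)
      (Submodule.span (ZMod 2) (d '' (A : Set E))) (Submodule.span (ZMod 2) (d '' (B : Set E)))
    have h2 : Module.finrank (ZMod 2) (Submodule.span (ZMod 2) (d '' ((A ∩ B : Finset E) : Set E))) ≤
        Module.finrank (ZMod 2) ((Submodule.span (ZMod 2) (d '' (A : Set E)) ⊓
          Submodule.span (ZMod 2) (d '' (B : Set E)) : Submodule (ZMod 2) W)) := by
      apply Submodule.finrank_mono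
      rw [le_inf_iff]
      exact ⟨Submodule.span_mono (Set.image_mono (by simp)),
        Submodule.span_mono (Set.image_mono (by simp))⟩
    omega

/-- MODULE Lin (b). -/
theorem rk_insert_eq_iff (d : E → W) (Z : Finset E) (e : E) :
    rk d (insert e Z) = rk d Z ↔ d e ∈ Submodule.span (ZMod 2) (d '' (Z : Set E)) := by
  have hle : Submodule.span (ZMod 2) (d '' (Z : Set E)) ≤
      Submodule.span (ZMod 2) (d '' ((insert e Z : Finset E) : Set E)) :=
    Submodule.span_mono (Set.image_mono (by simp))
  constructor
  · intro h
    have heq := Submodule.eq_of_le_of_finrank_eq hle h.symm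
    rw [heq]
    exact Submodule.subset_span ⟨e, by simp, rfl⟩
  · intro h
    unfold rk
    rw [Finset.coe_insert, Set.image_insert_eq, Submodule.span_insert,
      sup_eq_right.2 ((Submodule.span_singleton_le_iff_mem _ _).2 h)]

/-- MODULE Lin (c). -/
theorem span_eq_of_rk_eq (d : E → W) {A F : Finset E} (hAF : A ⊆ F) (h : rk d A = rk d F) :
    Submodule.span (ZMod 2) (d '' (A : Set E)) = Submodule.span (ZMod 2) (d '' (F : Set E)) :=
  Submodule.eq_of_le_of_finrank_eq (Submodule.span_mono (Set.image_mono (by exact_mod_cast hAF))) h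

end DBA
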