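import Pool.Agent.Lib.MP_dba578_co.DBA.Defs

/-!
# Board DBA, module MI: matroid intersection for rank functions

Induction on `G` (with `r1 r2 k` arbitrary; `Finset.induction_on G`).
`G = ∅`: the hypothesis for `A = ∅` gives `k = 0`; `I = ∅`.
`G = insert e G'`, `e ∉ G'`.
(i) `r1 {e} = 0` or `r2 {e} = 0`: the hypothesis holds for `G'`: for `A ⊆ G'`, if `r1 {e} = 0` use
`insert e A` (`r1 (insert e A) ≤ r1 A`, by submodularity with `{e}`), if `r2 {e} = 0` use `A`
(`r2 (G \ A) ≤ r2 (G' \ A)`).  Induction.
(ii) `r1 {e} = r2 {e} = 1`.  If the hypothesis holds for `G'` (same `k`): induction.  Otherwise there is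
`A ⊆ G'` with `r1 A + r2 (G' \ A) < k`.  The contractions `r_i' X = r_i (insert e X) - 1` are rank
functions (`r_i (insert e X) ≥ 1`).  If `k - 1 ≤ r1' B + r2' (G' \ B)` for all `B ⊆ G'`: induction gives
`I' ⊆ G'` with `#I' = k - 1 = r_i' I'`; take `I = insert e I'`.  Otherwise there is `B ⊆ G'` with
`r1 (insert e B) + r2 (insert e (G' \ B)) ≤ k`.  Submodularity:
`r1 (insert e (A ∪ B)) + r1 (A ∩ B) ≤ r1 A + r1 (insert e B)` and
`r2 (insert e (G' \ (A ∩ B))) + r2 (G' \ (A ∪ B)) ≤ r2 (G' \ A) + r2 (insert e (G' \ B))`.
The hypothesis for `insert e (A ∪ B)` and for `A ∩ B` shows that the left sides add up to at least `2 k`,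
the right sides add up to at most `2 k - 1`: contradiction.
-/

set_option autoImplicit false

namespace DBA

open Finset

private theorem mi_le_card {S : Type} [DecidableEq S] {r : Finset S → ℕ} (h : IsRank r)
    (A : Finset S) : r A ≤ #A := by
  induction A using Finset.induction_on with
  | empty => simp [h.empty]
  | insert e A he ih =>
    rw [Finset.card_insert_of_notMem he]
    exact (h.insert_le A e).trans (by omega)

/-- Contraction of an element of rank one. -/
private theorem mi_contract {S : Type} [DecidableEq S] {r : Finset S → ℕ} (h : IsRank r) (e : S)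
    (he : r {e} = 1) : IsRank fun X => r (insert e X) - 1 := by
  have h1 : ∀ X : Finset S, 1 ≤ r (insert e X) := fun X => by
    rw [← he]
    exact h.mono _ _ (by simp)
  refine ⟨?_, ?_, ?_, ?_⟩
  · show r (insert e ∅) - 1 = 0
    rw [show (insert e (∅ : Finset S)) = {e} from rfl, he]
  · intro A B hAB
    have := h.mono _ _ (Finset.insert_subset_insert e hAB)
    show r (insert e A) - 1 ≤ r (insert e B) - 1
    omega
  · intro A f
    show r (insert e (insert f A)) - 1 ≤ r (insert e A) - 1 + 1
    rw [Finset.insert_comm]
    have := h.insert_le (insert e A) f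
    have := h1 A
    omega
  · intro A B
    show r (insert e (A ∪ B)) - 1 + (r (insert e (A ∩ B)) - 1) ≤
      r (insert e A) - 1 + (r (insert e B) - 1)
    have h2 := h.submod (insert e A) (insert e B)
    rw [← Finset.insert_inter_distrib, show insert e A ∪ insert e B = insert e (A ∪ B) by
      ext x; simp only [Finset.mem_union, Finset.mem_insert]; tauto] at h2
    have := h1 A
    have := h1 B
    have := h1 (A ∪ B)
    have := h1 (A ∩ B)
    omega

private theorem mi_aux {S : Type} [DecidableEq S] (G : Finset S) :
    ∀ (r₁ r₂ : Finset S → ℕ) (k : ℕ), IsRank r₁ → IsRank r₂ →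
    (∀ A ⊆ G, k ≤ r₁ A + r₂ (G \ A)) → ∃ I ⊆ G, #I = k ∧ r₁ I = k ∧ r₂ I = k := by
  induction G using Finset.induction_on with
  | empty =>
    intro r₁ r₂ k h₁ h₂ hk
    have h := hk ∅ (Finset.Subset.refl _)
    rw [h₁.empty, Finset.sdiff_self] at h
    have h3 : r₂ ∅ = 0 := h₂.empty
    refine ⟨∅, Finset.Subset.refl _, ?_, ?_, ?_⟩
    · simp; omega
    · rw [h₁.empty]; omega
    · rw [h₂.empty]; omega
  | insert e G heG ih =>
    intro r₁ r₂ k h₁ h₂ hk
    by_cases hdel : ∀ A ⊆ G, k ≤ r₁ A + r₂ (G \ A)
    · obtain ⟨I, hI, h⟩ := ih r₁ r₂ k h₁ h₂ hdel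
      exact ⟨I, hI.trans (Finset.subset_insert _ _), h⟩
    · push Not at hdel
      obtain ⟨A, hA, hAk⟩ := hdel
      have heA : e ∉ A := fun h => heG (hA h)
      have hsd : ∀ B ⊆ G, insert e G \ B = insert e (G \ B) := by
        intro B hB
        have heB : e ∉ B := fun h => heG (hB h)
        rw [Finset.insert_sdiff_of_notMem _ heB]
      have hsd' : ∀ B ⊆ G, insert e G \ insert e B = G \ B := by
        intro B _
        rw [Finset.insert_sdiff_insert, Finset.sdiff_insert_of_notMem heG]
      have e1 : r₁ {e} = 1 := by
        have h0 : r₁ {e} ≤ 1 := by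
          have := h₁.insert_le ∅ e
          rw [h₁.empty] at this
          exact this
        by_contra hne
        have h0' : r₁ {e} = 0 := by omega
        have h2 := hk (insert e A) (Finset.insert_subset_insert e hA)
        rw [hsd' A hA] at h2
        have h3 := h₁.submod {e} A
        rw [show ({e} : Finset S) ∪ A = insert e A from rfl] at h3
        omega
      have e2 : r₂ {e} = 1 := by
        have h0 : r₂ {e} ≤ 1 := by
          have := h₂.insert_le ∅ e
          rw [h₂.empty] at this
          exact this
        by_contra hne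
        have h0' : r₂ {e} = 0 := by omega
        have h2 := hk A (hA.trans (Finset.subset_insert _ _))
        rw [hsd A hA] at h2
        have h3 := h₂.submod {e} (G \ A)
        rw [show ({e} : Finset S) ∪ (G \ A) = insert e (G \ A) from rfl] at h3
        omega
      have p1 : ∀ X : Finset S, 1 ≤ r₁ (insert e X) := fun X => by
        rw [← e1]; exact h₁.mono _ _ (by simp)
      have p2 : ∀ X : Finset S, 1 ≤ r₂ (insert e X) := fun X => by
        rw [← e2]; exact h₂.mono _ _ (by simp)
      by_cases hcon : ∀ B ⊆ G, k - 1 ≤ (r₁ (insert e B) - 1) + (r₂ (insert e (G \ B)) - 1)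
      · obtain ⟨I, hI, hc, hI1, hI2⟩ := ih _ _ (k - 1) (mi_contract h₁ e e1) (mi_contract h₂ e e2) hcon
        have hk1 : 1 ≤ k := by omega
        have heI : e ∉ I := fun h => heG (hI h)
        refine ⟨insert e I, Finset.insert_subset_insert e hI, ?_, ?_, ?_⟩
        · rw [Finset.card_insert_of_notMem heI]; omega
        · have := p1 I
          change r₁ (insert e I) - 1 = k - 1 at hI1
          omega
        · have := p2 I
          change r₂ (insert e I) - 1 = k - 1 at hI2
          omega
      · push Not at hcon
        obtain ⟨B, hB, hBk⟩ := hcon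
        exfalso
        have q1 := p1 B
        have q2 := p2 (G \ B)
        have s1 := h₁.submod A (insert e B)
        have s2 := h₂.submod (G \ A) (insert e (G \ B))
        have t1 : A ∪ insert e B = insert e (A ∪ B) := Finset.union_insert _ _ _
        have t2 : A ∩ insert e B = A ∩ B := by
          rw [Finset.inter_insert_of_notMem heA]
        have t3 : G \ A ∪ insert e (G \ B) = insert e (G \ (A ∩ B)) := by
          rw [Finset.union_insert]
          congr 1
          ext x
          simp only [Finset.mem_inter, Finset.mem_sdiff, Finset.mem_union]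
          tauto
        have t4 : G \ A ∩ insert e (G \ B) = G \ (A ∪ B) := by
          rw [Finset.inter_insert_of_notMem (fun h => heG (Finset.sdiff_subset h))]
          ext x
          simp only [Finset.mem_inter, Finset.mem_sdiff, Finset.mem_union]
          tauto
        rw [t1, t2] at s1
        rw [t3, t4] at s2
        have u1 := hk (insert e (A ∪ B)) (Finset.insert_subset_insert e (Finset.union_subset hA hB))
        rw [hsd' _ (Finset.union_subset hA hB)] at u1
        have u2 := hk (A ∩ B) ((Finset.inter_subset_left.trans hA).trans (Finset.subset_insert _ _))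
        rw [hsd _ (Finset.inter_subset_left.trans hA)] at u2
        omega

/-- MODULE MI. -/
theorem matroid_intersection {S : Type} [DecidableEq S] {r1 r2 : Finset S → ℕ}
    (h1 : IsRank r1) (h2 : IsRank r2) (G : Finset S) (k : ℕ)
    (H : ∀ A ⊆ G, k ≤ r1 A + r2 (G \ A)) :
    ∃ I ⊆ G, I.card = k ∧ r1 I = k ∧ r2 I = k :=
  mi_aux G r1 r2 k h1 h2 H

end DBA
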