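import Pool.Agent.Lib.MP_dba578_co.DBA.Defs

/-!
# Board DBA, module Sums: two rank functions on `S × Fin m × Bool`

`r1 Z = ∑_s r (Z_s)` over the slices `Z_s = {e | (e, s) ∈ Z}`, and
`r2 Z = ∑_e min (y e) #{i | ∃ t, (e, i, t) ∈ Z}`.
`r1`: slices commute with unions, intersections, and `slice (insert (e, s) A)` is `insert e (slice A s)` for
the index `s` and unchanged for the others.
`r2`: `Z ↦ #{i | ∃ t, (e, i, t) ∈ Z}` is the cardinality of an image: the image of a union is the union,
the image of an intersection is contained in the intersection, `card_union_add_card_inter`; `min (y e) ·`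
of a rank function `ρ` is a rank function: if `ρ A ≥ y` or `ρ B ≥ y`, say `ρ A ≥ y`, then
`min y (ρ (A ∪ B)) + min y (ρ (A ∩ B)) = y + min y (ρ (A ∩ B)) ≤ min y (ρ A) + min y (ρ B)`; otherwise
`≤ ρ (A ∪ B) + ρ (A ∩ B) ≤ ρ A + ρ B`.  Sums of rank functions such that an insertion changes only one
summand: the summand for `e' ≠ e` does not change when `(e, i, t)` is inserted.
-/

set_option autoImplicit false

namespace DBA

variable {S : Type} [DecidableEq S] [Fintype S]

/-- The slice of `Z` at the index `s`. -/
def slice {m : ℕ} (Z : Finset (S × Fin m × Bool)) (s : Fin m × Bool) : Finset S :=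
  Finset.univ.filter (fun e => (e, s) ∈ Z)

/-- The number of layers used by `e`. -/
def layers {m : ℕ} (Z : Finset (S × Fin m × Bool)) (e : S) : Finset (Fin m) :=
  Finset.univ.filter (fun i => ∃ t : Bool, (e, i, t) ∈ Z)

/-- First rank function. -/
def rone (r : Finset S → ℕ) (m : ℕ) (Z : Finset (S × Fin m × Bool)) : ℕ :=
  ∑ s : Fin m × Bool, r (slice Z s)

/-- Second rank function. -/
def rtwo (y : S → ℕ) (m : ℕ) (Z : Finset (S × Fin m × Bool)) : ℕ :=
  ∑ e : S, min (y e) (layers Z e).card

private theorem slice_mono {m : ℕ} {A B : Finset (S × Fin m × Bool)} (h : A ⊆ B)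
    (s : Fin m × Bool) : slice A s ⊆ slice B s := by
  intro e he
  unfold slice at he ⊢
  rw [Finset.mem_filter] at he ⊢
  exact ⟨he.1, h he.2⟩

private theorem slice_union {m : ℕ} (A B : Finset (S × Fin m × Bool)) (s : Fin m × Bool) :
    slice (A ∪ B) s = slice A s ∪ slice B s := by
  ext e
  simp [slice]

private theorem slice_inter {m : ℕ} (A B : Finset (S × Fin m × Bool)) (s : Fin m × Bool) :
    slice (A ∩ B) s = slice A s ∩ slice B s := by
  ext e
  simp [slice]

private theorem slice_insert {m : ℕ} (A : Finset (S × Fin m × Bool)) (p : S × Fin m × Bool)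
    (s : Fin m × Bool) :
    slice (insert p A) s = if s = p.2 then insert p.1 (slice A s) else slice A s := by
  obtain ⟨e0, s0⟩ := p
  ext e
  by_cases h : s = s0
  · subst h
    simp [slice]
  · simp [slice, h]

private theorem layers_mono {m : ℕ} {A B : Finset (S × Fin m × Bool)} (h : A ⊆ B) (e : S) :
    layers A e ⊆ layers B e := by
  intro i hi
  unfold layers at hi ⊢
  rw [Finset.mem_filter] at hi ⊢
  obtain ⟨h1, t, ht⟩ := hi
  exact ⟨h1, t, h ht⟩

private theorem layers_union {m : ℕ} (A B : Finset (S × Fin m × Bool)) (e : S) :
    layers (A ∪ B) e = layers A e ∪ layers B e := by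
  ext i
  unfold layers
  simp only [Finset.mem_filter, Finset.mem_univ, true_and, Finset.mem_union]
  constructor
  · rintro ⟨t, h | h⟩
    · exact Or.inl ⟨t, h⟩
    · exact Or.inr ⟨t, h⟩
  · rintro (⟨t, h⟩ | ⟨t, h⟩)
    · exact ⟨t, Or.inl h⟩
    · exact ⟨t, Or.inr h⟩

private theorem layers_insert {m : ℕ} (A : Finset (S × Fin m × Bool)) (p : S × Fin m × Bool)
    (e : S) : (layers (insert p A) e).card ≤ (layers A e).card + if e = p.1 then 1 else 0 := by
  obtain ⟨e0, i0, t0⟩ := p
  by_cases h : e = e0
  · subst h
    have hsub : layers (insert (e, i0, t0) A) e ⊆ insert i0 (layers A e) := by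
      intro i hi
      unfold layers at hi
      rw [Finset.mem_filter] at hi
      obtain ⟨_, t, ht⟩ := hi
      rw [Finset.mem_insert] at ht
      rcases ht with ht | ht
      · have : i = i0 := by
          have := congrArg (fun q : S × Fin m × Bool => q.2.1) ht
          exact this
        rw [this]
        exact Finset.mem_insert_self _ _
      · apply Finset.mem_insert_of_mem
        unfold layers
        rw [Finset.mem_filter]
        exact ⟨Finset.mem_univ _, t, ht⟩
    refine (Finset.card_le_card hsub).trans ?_
    simp only [if_true]
    exact Finset.card_insert_le _ _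
  · have hsub : layers (insert (e0, i0, t0) A) e ⊆ layers A e := by
      intro i hi
      unfold layers at hi
      rw [Finset.mem_filter] at hi
      obtain ⟨_, t, ht⟩ := hi
      rw [Finset.mem_insert] at ht
      rcases ht with ht | ht
      · exfalso
        apply h
        exact congrArg (fun q : S × Fin m × Bool => q.1) ht
      · unfold layers
        rw [Finset.mem_filter]
        exact ⟨Finset.mem_univ _, t, ht⟩
    refine (Finset.card_le_card hsub).trans ?_
    exact Nat.le_add_right _ _

/-- MODULE Sums (a). -/
theorem rone_isRank {r : Finset S → ℕ} (hr : IsRank r) (m : ℕ) : IsRank (rone r m) := by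
  refine ⟨?_, ?_, ?_, ?_⟩
  · unfold rone
    apply Finset.sum_eq_zero
    intro s _
    have : slice (∅ : Finset (S × Fin m × Bool)) s = ∅ := by
      ext e
      simp [slice]
    rw [this, hr.empty]
  · intro A B hAB
    unfold rone
    exact Finset.sum_le_sum (fun s _ => hr.mono _ _ (slice_mono hAB s))
  · intro A p
    unfold rone
    have h1 : ∀ s : Fin m × Bool, r (slice (insert p A) s) ≤
        r (slice A s) + if s = p.2 then 1 else 0 := by
      intro s
      rw [slice_insert]
      by_cases h : s = p.2
      · rw [if_pos h, if_pos h]
        exact hr.insert_le _ _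
      · rw [if_neg h, if_neg h]
        exact Nat.le_add_right _ _
    calc ∑ s : Fin m × Bool, r (slice (insert p A) s)
        ≤ ∑ s : Fin m × Bool, (r (slice A s) + if s = p.2 then 1 else 0) :=
          Finset.sum_le_sum (fun s _ => h1 s)
      _ = ∑ s : Fin m × Bool, r (slice A s) + 1 := by
          rw [Finset.sum_add_distrib]
          simp
  · intro A B
    unfold rone
    rw [← Finset.sum_add_distrib, ← Finset.sum_add_distrib]
    apply Finset.sum_le_sum
    intro s _
    rw [slice_union, slice_inter]
    exact hr.submod _ _

/-- MODULE Sums (b). -/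
theorem rtwo_isRank (y : S → ℕ) (m : ℕ) : IsRank (rtwo (S := S) y m) := by
  refine ⟨?_, ?_, ?_, ?_⟩
  · unfold rtwo
    apply Finset.sum_eq_zero
    intro e _
    have : layers (∅ : Finset (S × Fin m × Bool)) e = ∅ := by
      ext i
      simp [layers]
    rw [this, Finset.card_empty]
    exact Nat.min_zero _
  · intro A B hAB
    unfold rtwo
    apply Finset.sum_le_sum
    intro e _
    have := Finset.card_le_card (layers_mono hAB e)
    omega
  · intro A p
    unfold rtwo
    calc ∑ e : S, min (y e) (layers (insert p A) e).card
        ≤ ∑ e : S, (min (y e) (layers A e).card + if e = p.1 then 1 else 0) := by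
          apply Finset.sum_le_sum
          intro e _
          have := layers_insert A p e
          split_ifs at this ⊢ <;> omega
      _ = ∑ e : S, min (y e) (layers A e).card + 1 := by
          rw [Finset.sum_add_distrib]
          simp
  · intro A B
    unfold rtwo
    rw [← Finset.sum_add_distrib, ← Finset.sum_add_distrib]
    apply Finset.sum_le_sum
    intro e _
    have h1 : (layers (A ∩ B) e).card ≤ (layers A e ∩ layers B e).card :=
      Finset.card_le_card (Finset.subset_inter (layers_mono Finset.inter_subset_left e)
        (layers_mono Finset.inter_subset_right e))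
    have h2 := Finset.card_union_add_card_inter (layers A e) (layers B e)
    have h3 : (layers A e ∩ layers B e).card ≤ (layers A e).card :=
      Finset.card_le_card Finset.inter_subset_left
    have h4 : (layers A e ∩ layers B e).card ≤ (layers B e).card :=
      Finset.card_le_card Finset.inter_subset_right
    rw [layers_union]
    omega

end DBA
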