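import Pool.Agent.Lib.MP_dba578_co.DBA.MI
import Pool.Agent.Lib.MP_dba578_co.DBA.Sums

/-!
# Board DBA, module Pack: packing two disjoint bases in every layer

`h e = #{i | e ∈ F i}`.  Let `G = {(e, i, t) | e ∈ F i}`, `k = ∑_i 2 r (F i) = ∑_{s} r (F s.1)`.
CLAIM: `k ≤ rone r m A + rtwo y m (G \ A)` for `A ⊆ G`.  Let `c e = #(layers (G \ A) e)` (`≤ h e`, as
`layers (G \ A) e ⊆ {i | e ∈ F i}`).  `min (y e) (c e) ≥ y e * c e / h e` (since `y e ≤ h e`, `c e ≤ h e`;
`h e = 0` is trivial).  Let `Z i = slice A (i, false) ∩ slice A (i, true)` (`⊆ F i`): `i ∈ layers (G \ A) e`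
iff `e ∈ F i \ Z i`.  So in `ℚ`
`rtwo (G \ A) ≥ ∑_e y e * c e / h e = ∑_i ∑_{e ∈ F i \ Z i} y e / h e ≥ ∑_i ∑_{e ∈ out r (F i) (Z i)} y e / h e
≥ ∑_i 2 (r (F i) - r (Z i)) ≥ ∑_i ∑_t (r (F i) - r (slice A (i, t)))`
(elements of `out r (F i) (Z i)` are not in `Z i`; `Z i ⊆ slice A (i, t)`).
`matroid_intersection` gives `I ⊆ G` with `#I = k = rone I = rtwo I`.  `slice I (i, t) ⊆ F i`, so
`r (slice I (i,t)) ≤ r (F i)`, with equality for all `(i, t)` because the sums agree
(`Finset.sum_eq_sum_iff_of_le`).  And `#I = ∑_e #{s | (e, s) ∈ I}`, `#{s | (e, s) ∈ I} ≥ #(layers I e) ≥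
min (y e) #(layers I e)`: equality for every `e`, so no `(e, i)` has both `(e, i, false)` and `(e, i, true)`
in `I` and `#(layers I e) ≤ y e`.  Take `A i = slice I (i, false)`, `B i = slice I (i, true)`.
-/

set_option autoImplicit false

namespace DBA

variable {S : Type} [DecidableEq S] [Fintype S]

private theorem mem_slice {m : ℕ} {Z : Finset (S × Fin m × Bool)} {s : Fin m × Bool} {e : S} :
    e ∈ slice Z s ↔ (e, s) ∈ Z := by
  unfold slice
  simp

private theorem mem_layers {m : ℕ} {Z : Finset (S × Fin m × Bool)} {e : S} {i : Fin m} :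
    i ∈ layers Z e ↔ ∃ t : Bool, (e, i, t) ∈ Z := by
  unfold layers
  simp

/-- MODULE Pack (a): the rank inequality. -/
theorem pack_ineq {r : Finset S → ℕ} (hr : IsRank r) {m : ℕ} (F : Fin m → Finset S) (y : S → ℕ)
    (hy : ∀ e, y e ≤ (Finset.univ.filter (fun i : Fin m => e ∈ F i)).card)
    (P : ∀ i, ∀ Z ⊆ F i, 2 * (r (F i) : ℚ) ≤ 2 * r Z +
      ∑ e ∈ out r (F i) Z, (y e : ℚ) / (Finset.univ.filter (fun j : Fin m => e ∈ F j)).card)
    (A : Finset (S × Fin m × Bool)) (hA : ∀ p ∈ A, p.1 ∈ F p.2.1) :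
    ∑ i, 2 * r (F i) ≤ rone r m A +
      rtwo y m ((Finset.univ.filter (fun p : S × Fin m × Bool => p.1 ∈ F p.2.1)) \ A) := by
  set G : Finset (S × Fin m × Bool) :=
    Finset.univ.filter (fun p : S × Fin m × Bool => p.1 ∈ F p.2.1) with hG
  set Z : Fin m → Finset S := fun i => slice A (i, false) ∩ slice A (i, true) with hZ
  set h : S → ℕ := fun e => (Finset.univ.filter (fun i : Fin m => e ∈ F i)).card with hh
  have hZF : ∀ i, Z i ⊆ F i := by
    intro i e he
    have h1 : (e, i, false) ∈ A := mem_slice.1 (Finset.mem_inter.1 he).1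
    exact hA _ h1
  have hlay : ∀ e, layers (G \ A) e =
      Finset.univ.filter (fun i : Fin m => e ∈ F i ∧ e ∉ Z i) := by
    intro e
    ext i
    rw [mem_layers, Finset.mem_filter]
    constructor
    · rintro ⟨t, ht⟩
      rw [Finset.mem_sdiff, hG, Finset.mem_filter] at ht
      refine ⟨Finset.mem_univ _, ht.1.2, fun he => ht.2 ?_⟩
      obtain ⟨h1, h2⟩ := Finset.mem_inter.1 he
      cases t
      · exact mem_slice.1 h1
      · exact mem_slice.1 h2
    · rintro ⟨-, h1, h2⟩
      by_contra hno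
      push Not at hno
      apply h2
      have hall : ∀ t, (e, i, t) ∈ A := by
        intro t
        by_contra ht
        refine hno t ?_
        rw [Finset.mem_sdiff, hG, Finset.mem_filter]
        exact ⟨⟨Finset.mem_univ _, h1⟩, ht⟩
      exact Finset.mem_inter.2 ⟨mem_slice.2 (hall false), mem_slice.2 (hall true)⟩
  have hch : ∀ e, (layers (G \ A) e).card ≤ h e := by
    intro e
    rw [hlay]
    refine Finset.card_le_card fun i hi => ?_
    rw [Finset.mem_filter] at hi ⊢
    exact ⟨hi.1, hi.2.1⟩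
  -- the second rank function
  have h2 : ∀ e, (y e : ℚ) / h e * (layers (G \ A) e).card ≤
      ((min (y e) (layers (G \ A) e).card : ℕ) : ℚ) := by
    intro e
    have hye : (y e : ℚ) ≤ h e := by exact_mod_cast hy e
    have hce : ((layers (G \ A) e).card : ℚ) ≤ h e := by exact_mod_cast hch e
    have hy0 : (0 : ℚ) ≤ y e := Nat.cast_nonneg _
    have hc0 : (0 : ℚ) ≤ (layers (G \ A) e).card := Nat.cast_nonneg _
    have hh0 : (0 : ℚ) ≤ h e := Nat.cast_nonneg _
    rw [Nat.cast_min]
    refine le_min ?_ ?_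
    · rw [div_mul_eq_mul_div]
      exact div_le_of_le_mul₀ hh0 hy0 (mul_le_mul_of_nonneg_left hce hy0)
    · rw [div_mul_eq_mul_div]
      refine div_le_of_le_mul₀ hh0 hc0 ?_
      rw [mul_comm]
      exact mul_le_mul_of_nonneg_left hye hc0
  have h3 : ∑ i, ∑ e ∈ out r (F i) (Z i), (y e : ℚ) / h e ≤ (rtwo y m (G \ A) : ℚ) := by
    have e1 : (rtwo y m (G \ A) : ℚ) = ∑ e, ((min (y e) (layers (G \ A) e).card : ℕ) : ℚ) := by
      unfold rtwo
      push_cast
      rfl
    rw [e1]
    calc ∑ i, ∑ e ∈ out r (F i) (Z i), (y e : ℚ) / h e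
        ≤ ∑ i, ∑ e ∈ Finset.univ.filter (fun e => e ∈ F i ∧ e ∉ Z i), (y e : ℚ) / h e := by
          refine Finset.sum_le_sum fun i _ => ?_
          refine Finset.sum_le_sum_of_subset_of_nonneg ?_ (fun e _ _ => by positivity)
          intro e he
          unfold out at he
          rw [Finset.mem_filter] at he ⊢
          refine ⟨Finset.mem_univ _, he.1, fun hz => he.2 ?_⟩
          rw [Finset.insert_eq_of_mem hz]
      _ = ∑ i, ∑ e, if e ∈ F i ∧ e ∉ Z i then (y e : ℚ) / h e else 0 := by
          refine Finset.sum_congr rfl fun i _ => ?_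
          rw [Finset.sum_filter]
      _ = ∑ e, ∑ i, if e ∈ F i ∧ e ∉ Z i then (y e : ℚ) / h e else 0 := Finset.sum_comm
      _ = ∑ e, (y e : ℚ) / h e * (layers (G \ A) e).card := by
          refine Finset.sum_congr rfl fun e _ => ?_
          rw [hlay, ← Finset.sum_filter, Finset.sum_const, nsmul_eq_mul, mul_comm]
      _ ≤ _ := Finset.sum_le_sum fun e _ => h2 e
  have h4 : ((∑ i, 2 * r (F i) : ℕ) : ℚ) ≤
      ((rone r m A : ℕ) : ℚ) + ((rtwo y m (G \ A) : ℕ) : ℚ) := by
    have e1 : ((rone r m A : ℕ) : ℚ) =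
        ∑ i, ((r (slice A (i, true)) : ℚ) + r (slice A (i, false))) := by
      unfold rone
      rw [Fintype.sum_prod_type]
      push_cast
      refine Finset.sum_congr rfl fun i _ => ?_
      rw [Fintype.sum_bool]
    push_cast
    calc ∑ i, 2 * (r (F i) : ℚ)
        ≤ ∑ i, (((r (slice A (i, true)) : ℚ) + r (slice A (i, false))) +
            ∑ e ∈ out r (F i) (Z i), (y e : ℚ) / h e) := by
          refine Finset.sum_le_sum fun i _ => ?_
          have p1 := P i (Z i) (hZF i)
          have p2 : (r (Z i) : ℚ) ≤ r (slice A (i, true)) := by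
            exact_mod_cast hr.mono _ _ Finset.inter_subset_right
          have p3 : (r (Z i) : ℚ) ≤ r (slice A (i, false)) := by
            exact_mod_cast hr.mono _ _ Finset.inter_subset_left
          linarith
      _ = ((rone r m A : ℕ) : ℚ) + ∑ i, ∑ e ∈ out r (F i) (Z i), (y e : ℚ) / h e := by
          rw [Finset.sum_add_distrib, e1]
      _ ≤ _ := by linarith
  exact_mod_cast h4

/-- MODULE Pack (b): two disjoint bases in every layer. -/
theorem pack {r : Finset S → ℕ} (hr : IsRank r) {m : ℕ} (F : Fin m → Finset S) (y : S → ℕ)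
    (hy : ∀ e, y e ≤ (Finset.univ.filter (fun i : Fin m => e ∈ F i)).card)
    (P : ∀ i, ∀ Z ⊆ F i, 2 * (r (F i) : ℚ) ≤ 2 * r Z +
      ∑ e ∈ out r (F i) Z, (y e : ℚ) / (Finset.univ.filter (fun j : Fin m => e ∈ F j)).card) :
    ∃ A B : Fin m → Finset S, (∀ i, A i ⊆ F i) ∧ (∀ i, B i ⊆ F i) ∧ (∀ i, Disjoint (A i) (B i)) ∧
      (∀ i, r (A i) = r (F i)) ∧ (∀ i, r (B i) = r (F i)) ∧
      ∀ e, (Finset.univ.filter (fun i : Fin m => e ∈ A i ∪ B i)).card ≤ y e := by
  set G : Finset (S × Fin m × Bool) :=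
    Finset.univ.filter (fun p : S × Fin m × Bool => p.1 ∈ F p.2.1) with hG
  obtain ⟨I, hIG, hc, h1, h2⟩ := matroid_intersection (rone_isRank hr m)
    (rtwo_isRank (S := S) y m) G (∑ i, 2 * r (F i)) (fun A hAG => by
      refine pack_ineq hr F y hy P A fun p hp => ?_
      have := hAG hp
      rw [hG, Finset.mem_filter] at this
      exact this.2)
  have hIF : ∀ (i : Fin m) (t : Bool), slice I (i, t) ⊆ F i := by
    intro i t e he
    have h3 := hIG (mem_slice.1 he)
    rw [hG, Finset.mem_filter] at h3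
    exact h3.2
  have hreq : ∀ s : Fin m × Bool, r (slice I s) = r (F s.1) := by
    have h3 : ∑ s : Fin m × Bool, r (slice I s) = ∑ s : Fin m × Bool, r (F s.1) := by
      have h4 : ∑ s : Fin m × Bool, r (F s.1) = ∑ i, 2 * r (F i) := by
        rw [Fintype.sum_prod_type]
        refine Finset.sum_congr rfl fun i _ => ?_
        rw [Fintype.sum_bool]
        ring
      rw [h4]
      exact h1
    have h5 := (Finset.sum_eq_sum_iff_of_le (s := Finset.univ)
      (fun s _ => hr.mono _ _ (hIF s.1 s.2))).1 h3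
    exact fun s => h5 s (Finset.mem_univ _)
  -- the fibres
  set fib : S → Finset (Fin m × Bool) := fun e => Finset.univ.filter (fun s => (e, s) ∈ I) with hfib
  have hlim : ∀ e, layers I e = (fib e).image Prod.fst := by
    intro e
    ext i
    rw [mem_layers, Finset.mem_image]
    constructor
    · rintro ⟨t, ht⟩
      exact ⟨(i, t), by rw [hfib, Finset.mem_filter]; exact ⟨Finset.mem_univ _, ht⟩, rfl⟩
    · rintro ⟨⟨j, t⟩, hj, hji⟩
      rw [hfib, Finset.mem_filter] at hj
      simp only at hji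
      subst hji
      exact ⟨t, hj.2⟩
  have hIc : I.card = ∑ e, (fib e).card := by
    rw [Finset.card_eq_sum_card_fiberwise (f := Prod.fst) (t := Finset.univ)
      (fun _ _ => Finset.mem_coe.2 (Finset.mem_univ _))]
    refine Finset.sum_congr rfl fun e _ => ?_
    refine Finset.card_bij (fun p _ => p.2) ?_ ?_ ?_
    · rintro ⟨e', s⟩ hp
      rw [Finset.mem_filter] at hp
      rw [hfib, Finset.mem_filter]
      obtain ⟨hp1, hp2⟩ := hp
      simp only at hp2
      subst hp2
      exact ⟨Finset.mem_univ _, hp1⟩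
    · rintro ⟨e1, s1⟩ hp ⟨e2, s2⟩ hq hs
      rw [Finset.mem_filter] at hp hq
      simp only at hs
      rw [hs, show e1 = e2 from hp.2.trans hq.2.symm]
    · intro s hs
      rw [hfib, Finset.mem_filter] at hs
      exact ⟨(e, s), by rw [Finset.mem_filter]; exact ⟨hs.2, rfl⟩, rfl⟩
  have hle1 : ∀ e, min (y e) (layers I e).card ≤ (layers I e).card := fun e => min_le_right _ _
  have hle2 : ∀ e, (layers I e).card ≤ (fib e).card := by
    intro e
    rw [hlim]
    exact Finset.card_image_le
  have hsum : ∑ e, min (y e) (layers I e).card = ∑ e, (fib e).card := by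
    rw [← hIc, hc]
    exact h2
  have heq := (Finset.sum_eq_sum_iff_of_le (s := Finset.univ)
    (fun e _ => (hle1 e).trans (hle2 e))).1 hsum
  refine ⟨fun i => slice I (i, false), fun i => slice I (i, true), fun i => hIF i false,
    fun i => hIF i true, fun i => ?_, fun i => hreq (i, false), fun i => hreq (i, true), fun e => ?_⟩
  · rw [Finset.disjoint_left]
    intro e he1 he2
    have h3 := heq e (Finset.mem_univ _)
    have h4 : ((fib e).image Prod.fst).card = (fib e).card := by
      rw [← hlim]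
      exact le_antisymm (hle2 e) (by rw [← h3]; exact hle1 e)
    have h5 := Finset.card_image_iff.1 h4
    have h6 : ((i, false) : Fin m × Bool) = (i, true) := by
      refine h5 ?_ ?_ rfl
      · rw [Finset.mem_coe, hfib, Finset.mem_filter]
        exact ⟨Finset.mem_univ _, mem_slice.1 he1⟩
      · rw [Finset.mem_coe, hfib, Finset.mem_filter]
        exact ⟨Finset.mem_univ _, mem_slice.1 he2⟩
    exact absurd (congrArg Prod.snd h6) (by simp)
  · have h3 := heq e (Finset.mem_univ _)
    have h4 : Finset.univ.filter (fun i : Fin m => e ∈ slice I (i, false) ∪ slice I (i, true)) =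
        layers I e := by
      ext i
      rw [Finset.mem_filter, mem_layers, Finset.mem_union, mem_slice, mem_slice]
      constructor
      · rintro ⟨-, h5 | h5⟩
        · exact ⟨false, h5⟩
        · exact ⟨true, h5⟩
      · rintro ⟨t, ht⟩
        refine ⟨Finset.mem_univ _, ?_⟩
        cases t
        · exact Or.inl ht
        · exact Or.inr ht
    rw [h4]
    have h5 := hle2 e
    rw [← h3] at h5
    exact h5.trans (min_le_left _ _)

end DBA
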