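import Pool.Agent.Lib.MP_dba578_co.DBA.Level4
import Pool.Agent.Lib.MP_dba578_co.DBA.Pack
import Pool.Agent.Lib.MP_dba578_co.DBA.Even4
import Pool.Agent.Lib.MP_dba578_co.DBA.Dec
import Pool.Agent.Lib.MP_dba578_co.DBA.Cyc
import Pool.Agent.Lib.MP_dba578_co.DBA.Cut4
import Pool.Agent.Lib.MP_dba578_co.DBA.CutTree

/-!
# Board DBA, Main4: assembly of the theorem with general levels
-/

set_option autoImplicit false

namespace DBA

/-- Binary matroids, general levels. -/
theorem binary_cover4 {E W : Type} [DecidableEq E] [Fintype E] [AddCommGroup W] [Module (ZMod 2) W]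
    [Module.Finite (ZMod 2) W] (d : E → W) (y m : E → ℕ) (hym : ∀ e, y e ≤ 2 * m e)
    (G : E → Finset E) (hG : ∀ e, e ∈ G e)
    (H : ∀ e, ∀ Z : Finset E, (∀ g, m e < m g → g ∈ Z) →
      2 * m e * rk d (G e ∪ Z) ≤ 2 * m e * rk d Z +
        ∑ g ∈ out (rk d) (G e) Z, min (y g) (2 * m e - y g)) :
    ∃ (k : ℕ) (M : Fin k → Finset E), (∀ j, MinEven d (M j)) ∧
      ∀ e, (Finset.univ.filter (fun j : Fin k => e ∈ M j)).card = 2 * y e := by
  classical
  obtain ⟨n, hn⟩ : ∃ n, n = Finset.univ.sup m := ⟨_, rfl⟩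
  have hmn : ∀ e, m e ≤ n := fun e => by rw [hn]; exact Finset.le_sup (Finset.mem_univ e)
  have hh : ∀ e, m e ≤ (Finset.univ.filter (fun i : Fin n => e ∈ LL m G (i + 1))).card := by
    intro e
    have hsub : (Finset.univ.filter (fun i : Fin n => (i : ℕ) < m e)) ⊆
        (Finset.univ.filter (fun i : Fin n => e ∈ LL m G (i + 1))) := by
      intro i hi
      simp only [Finset.mem_filter, Finset.mem_univ, true_and] at hi ⊢
      unfold LL
      rw [Finset.mem_filter]
      exact ⟨Finset.mem_univ _, e, hi, hG e⟩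
    refine le_trans ?_ (Finset.card_le_card hsub)
    have : (Finset.univ.filter (fun i : Fin n => (i : ℕ) < m e)).card = m e := by
      have h1 : (Finset.univ.filter (fun i : Fin n => (i : ℕ) < m e)) =
          Finset.univ.map (Fin.castLEEmb (hmn e)) := by
        ext i
        simp only [Finset.mem_filter, Finset.mem_univ, true_and, Finset.mem_map]
        constructor
        · intro h
          exact ⟨⟨i, h⟩, by ext; rfl⟩
        · rintro ⟨j, rfl⟩
          exact j.2
      rw [h1, Finset.card_map, Finset.card_univ, Fintype.card_fin]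
    omega
  obtain ⟨h, hhdef⟩ : ∃ h : E → ℕ,
      h = fun e => (Finset.univ.filter (fun i : Fin n => e ∈ LL m G (i + 1))).card := ⟨_, rfl⟩
  obtain ⟨c, hc⟩ : ∃ c : E → ℕ, c = fun e => min (y e) (2 * h e - y e) := ⟨_, rfl⟩
  have hyh : ∀ e, y e ≤ 2 * h e := by
    intro e
    have h1 := hh e
    have h2 := hym e
    have h4 : (Finset.univ.filter (fun i : Fin n => e ∈ LL m G (i + 1))).card = h e := by
      rw [hhdef]
    rw [h4] at h1
    omega
  have hch : ∀ e, c e ≤ (Finset.univ.filter (fun i : Fin n => e ∈ LL m G (i + 1))).card := by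
    intro e
    have h1 := hyh e
    have h2 : (Finset.univ.filter (fun i : Fin n => e ∈ LL m G (i + 1))).card = h e := by
      rw [hhdef]
    rw [h2, hc]
    show min (y e) (2 * h e - y e) ≤ h e
    omega
  obtain ⟨A, B, hA, hB, hAB, hrA, hrB, hle⟩ := pack (rk_isRank d)
    (fun i : Fin n => LL m G (i + 1)) c hch
    (fun i Z hZ => by
      have h1 := level_ineq4 (rk_isRank d) y m G hG H n hmn i i.2 Z hZ
      rw [hc, hhdef]
      exact h1)
  obtain ⟨C, hC1, hC2⟩ := even_cover4 d (fun i : Fin n => LL m G (i + 1)) A B y hA hB hAB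
    (fun i e he => by
      rw [span_eq_of_rk_eq d (hA i) (hrA i)]
      exact Submodule.subset_span ⟨e, he, rfl⟩)
    (fun i e he => by
      rw [span_eq_of_rk_eq d (hB i) (hrB i)]
      exact Submodule.subset_span ⟨e, he, rfl⟩)
    (fun e => by
      have h1 := hle e
      have h2 : c e ≤ y e := by rw [hc]; exact min_le_left _ _
      omega)
    (fun e => by
      have h1 := hle e
      have h2 : c e ≤ 2 * h e - y e := by rw [hc]; exact min_le_right _ _
      have h3 := hyh e
      have h4 : (Finset.univ.filter (fun i : Fin n => e ∈ LL m G (i + 1))).card = h e := by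
        rw [hhdef]
      rw [h4]
      omega)
  obtain ⟨k, M, hM1, hM2⟩ := dec_family d C hC1
  exact ⟨k, M, hM1, fun e => by rw [hM2, hC2]⟩

/-- The theorem for graphs, partition form with levels. -/
theorem main_levels {V E : Type} [Fintype V] [DecidableEq V] [Fintype E] [DecidableEq E]
    (a b : E → V) (x : E → ℕ) (hx : ∀ e, Even (x e)) (m : E → ℕ) (hm : ∀ e, x e ≤ 4 * m e)
    (H : ∀ e, ∃ K : Finset V, a e ∈ K ∧ b e ∈ K ∧
      ∀ f : V → V, (∀ g, m e < m g → f (a g) = f (b g)) →
        4 * m e * ((K.image f).card - 1) ≤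
          ∑ g ∈ Finset.univ.filter (fun g : E => a g ∈ K ∧ b g ∈ K ∧ f (a g) ≠ f (b g)),
            min (x g) (4 * m e - x g)) :
    IsSumOfCycles a b x := by
  classical
  choose y hy using fun e => (hx e)
  have hxy : ∀ e, x e = 2 * y e := fun e => by rw [hy e]; ring
  choose K hK1 hK2 hK3 using H
  obtain ⟨k, M, hM1, hM2⟩ := binary_cover4 (gd a b) y m
    (fun e => by have h1 := hm e; have h2 := hxy e; omega)
    (fun e => Finset.univ.filter (fun g : E => a g ∈ K e ∧ b g ∈ K e))
    (fun e => by simp [hK1 e, hK2 e])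
    (fun e Z hZ => hyp_of_partition a b x y hxy (m e) (K e) ⟨_, hK1 e⟩ Z
      (fun f hf => hK3 e f (fun g hg => hf g (hZ g hg))))
  exact ⟨k, M, fun j => isCycle_of_minEven a b _ (hM1 j), fun e => by rw [hM2 e, hxy e]⟩

/-- The theorem for graphs, partition form. -/
theorem main_tree4 {V E : Type} [Fintype V] [DecidableEq V] [Fintype E] [DecidableEq E]
    (a b : E → V) (x : E → ℕ) (hx : ∀ e, Even (x e))
    (H : ∀ e, 0 < x e → ∃ K : Finset V, a e ∈ K ∧ b e ∈ K ∧ TreeDense a b x (2 * x e) K) :
    IsSumOfCycles a b x := by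
  classical
  choose y hy using fun e => (hx e)
  have hxy : ∀ e, x e = 2 * y e := fun e => by rw [hy e]; ring
  refine main_levels a b x hx y (fun e => by have := hxy e; omega) (fun e => ?_)
  rcases Nat.eq_zero_or_pos (x e) with h0 | h0
  · refine ⟨{a e, b e}, by simp, by simp, fun f _ => ?_⟩
    have : y e = 0 := by have := hxy e; omega
    rw [this]
    simp
  · obtain ⟨K, hK1, hK2, hK3⟩ := H e h0
    refine ⟨K, hK1, hK2, fun f hf => ?_⟩
    have h1 := hK3 f
    have h2 : 4 * y e = 2 * x e := by rw [hxy e]; ring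
    rw [h2]
    refine h1.trans (le_of_eq (Finset.sum_congr rfl fun g hg => ?_))
    rw [Finset.mem_filter] at hg
    have h3 : y g ≤ y e := by
      by_contra hcon
      exact hg.2.2.2 (hf g (by omega))
    have h4 := hxy g
    have h5 := hxy e
    omega

/-- The theorem for graphs, cut form. -/
theorem main_cut4 {V E : Type} [Fintype V] [DecidableEq V] [Fintype E] [DecidableEq E]
    (a b : E → V) (x : E → ℕ) (hx : ∀ e, Even (x e))
    (H : ∀ e, 0 < x e → ∃ K : Finset V, a e ∈ K ∧ b e ∈ K ∧ CutDense a b x (4 * x e) K) :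
    IsSumOfCycles a b x := by
  refine main_tree4 a b x hx (fun e he => ?_)
  obtain ⟨K, h1, h2, h3⟩ := H e he
  refine ⟨K, h1, h2, treeDense_of_cutDense a b x _ K ?_⟩
  have : 2 * (2 * x e) = 4 * x e := by ring
  rw [this]; exact h3

end DBA
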