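import Pool.Agent.Lib.MP_dba578_co.DBA.Defs

/-!
# Board DBA, module ThickAB: closure facts for rank functions
-/

set_option autoImplicit false

namespace DBA

variable {S : Type} [DecidableEq S] {r : Finset S → ℕ}

/-- If adding any element of `T` to `Z` does not change the rank then `r T = r Z`. -/
theorem rank_eq_of_closure (hr : IsRank r) {Z T : Finset S} (hZT : Z ⊆ T)
    (h : ∀ e ∈ T, r (insert e Z) = r Z) : r T = r Z := by
  have key : ∀ U : Finset S, U ⊆ T → r (Z ∪ U) = r Z := by
    intro U
    induction U using Finset.induction_on with
    | empty => intro _; simp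
    | insert e U heU ih =>
      intro hU
      have hU' : U ⊆ T := fun x hx => hU (Finset.mem_insert_of_mem hx)
      have heT : e ∈ T := hU (Finset.mem_insert_self e U)
      have h1 := ih hU'
      have h2 := hr.submod (Z ∪ U) (insert e Z)
      have h3 : (Z ∪ U) ∪ insert e Z = Z ∪ insert e U := by
        ext x
        simp only [Finset.mem_union, Finset.mem_insert]
        tauto
      have h4 : r Z ≤ r ((Z ∪ U) ∩ insert e Z) := by
        apply hr.mono
        intro x hx
        simp only [Finset.mem_inter, Finset.mem_union, Finset.mem_insert]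
        exact ⟨Or.inl hx, Or.inr hx⟩
      have h5 := h e heT
      have h6 : r Z ≤ r (Z ∪ insert e U) := hr.mono _ _ Finset.subset_union_left
      rw [h3] at h2
      omega
  have h1 := key T (Finset.Subset.refl T)
  rwa [Finset.union_eq_right.2 hZT] at h1

/-- The closure is monotone. -/
theorem closure_mono (hr : IsRank r) {Z Z' : Finset S} (hZ : Z ⊆ Z') {e : S}
    (h : r (insert e Z) = r Z) : r (insert e Z') = r Z' := by
  have h1 := hr.submod (insert e Z) Z'
  have h2 : insert e Z ∪ Z' = insert e Z' := by
    ext x
    simp only [Finset.mem_union, Finset.mem_insert]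
    constructor
    · rintro ((h | h) | h)
      · exact Or.inl h
      · exact Or.inr (hZ h)
      · exact Or.inr h
    · rintro (h | h)
      · exact Or.inl (Or.inl h)
      · exact Or.inr h
  have h3 : r Z ≤ r (insert e Z ∩ Z') := by
    apply hr.mono
    intro x hx
    simp only [Finset.mem_inter, Finset.mem_insert]
    exact ⟨Or.inr hx, hZ hx⟩
  have h4 : r Z' ≤ r (insert e Z') := hr.mono _ _ (Finset.subset_insert _ _)
  rw [h2] at h1
  omega

end DBA
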